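import Mathlib
import Pool.Agent.H130R4.DA5

/-!
# A convenient form of the Daugavet property, and its stability under finite sums
-/

set_option autoImplicit false

open Pool.Agent.H130R4.DA

namespace Pool.Agent.W700.Dau

/-- A convenient form of the Daugavet property of a real normed space. -/
def DP (E : Type*) [NormedAddCommGroup E] [NormedSpace ℝ E] : Prop :=
  ∀ (e : E) (φ : StrongDual ℝ E) (ε : ℝ), 0 < ε →
    ∃ x : E, ‖x‖ ≤ 1 ∧ ‖φ‖ - ε ≤ φ x ∧ 1 + ‖e‖ - ε ≤ ‖x + e‖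

section toD
variable {E : Type*} [NormedAddCommGroup E] [NormedSpace ℝ E]

theorem DP.daugavet (h : DP E) : DaugavetProperty ℝ E := by
  intro T hT
  obtain ⟨⟨w, hw⟩, hw0, hwspan⟩ := finrank_eq_one_iff'.mp
    (show Module.finrank ℝ (LinearMap.range (T : E →ₗ[ℝ] E)) = 1 from hT)
  have hw0' : w ≠ 0 := fun h => hw0 (Subtype.ext h)
  have hwn : 0 < ‖w‖ := norm_pos_iff.mpr hw0'
  obtain ⟨ψ, hψ1, hψ2⟩ := exists_dual_vector ℝ w hwn.ne'
  have hψ2' : ψ w = ‖w‖ := by simpa using hψ2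
  set G : StrongDual ℝ E := (‖w‖⁻¹ : ℝ) • (ψ.comp T) with hGdef
  have hTG : ∀ u, T u = G u • w := by
    intro u
    obtain ⟨c, hc⟩ := hwspan ⟨T u, LinearMap.mem_range_self _ u⟩
    have hc' : c • w = T u := congrArg Subtype.val hc
    have h1 : G u = (‖w‖⁻¹ : ℝ) * ψ (T u) := rfl
    rw [h1, ← hc', map_smul, hψ2', smul_eq_mul]
    congr 1
    field_simp
  have hTG' : T = G.smulRight w := by
    ext u
    rw [hTG u, ContinuousLinearMap.smulRight_apply]
  have hTn : ‖T‖ = ‖G‖ * ‖w‖ := by rw [hTG', ContinuousLinearMap.norm_smulRight_apply]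
  have hG0 : 0 < ‖G‖ := by
    rw [norm_pos_iff]
    intro h0
    obtain ⟨u, hu⟩ := hw
    apply hw0'
    rw [← hu]
    show T u = 0
    rw [hTG u, h0]
    simp
  apply le_antisymm
  · exact (norm_add_le _ _).trans (add_le_add ContinuousLinearMap.norm_id_le le_rfl)
  · refine le_of_forall_pos_le_add fun ε hε => ?_
    set M : ℝ := ‖T‖ with hM'
    have hM0 : 0 ≤ M := norm_nonneg T
    set δ : ℝ := ε / (1 + M) with hδ
    have hδ0 : 0 < δ := by positivity
    obtain ⟨x, hx1, hx2, hx3⟩ := h (‖G‖ • w) ((‖G‖⁻¹ : ℝ) • G) δ hδ0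
    have hn1 : ‖(‖G‖⁻¹ : ℝ) • G‖ = 1 := by
      rw [norm_smul, norm_inv, norm_norm, inv_mul_cancel₀ hG0.ne']
    have hn2 : ‖‖G‖ • w‖ = M := by rw [norm_smul, norm_norm, hTn]
    rw [hn1] at hx2
    rw [hn2] at hx3
    have hGx : ((‖G‖⁻¹ : ℝ) • G) x = ‖G‖⁻¹ * G x := rfl
    rw [hGx] at hx2
    have hGx2 : ‖G‖⁻¹ * G x ≤ 1 := by
      have h1 := ((‖G‖⁻¹ : ℝ) • G).le_opNorm x
      rw [hn1, one_mul, hGx] at h1
      exact (le_abs_self _).trans (h1.trans hx1)
    have h3 : ‖x + T x‖ ≤ ‖ContinuousLinearMap.id ℝ E + T‖ := by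
      have := (ContinuousLinearMap.id ℝ E + T).le_opNorm x
      refine this.trans ?_
      calc _ ≤ ‖ContinuousLinearMap.id ℝ E + T‖ * 1 :=
            mul_le_mul_of_nonneg_left hx1 (norm_nonneg _)
        _ = _ := mul_one _
    have h4 : T x = (‖G‖⁻¹ * G x) • (‖G‖ • w) := by
      rw [hTG x, smul_smul]
      congr 1
      field_simp
    have h5 : x + ‖G‖ • w = (x + T x) + (1 - ‖G‖⁻¹ * G x) • (‖G‖ • w) := by
      rw [h4, sub_smul, one_smul]; abel
    have h6 : ‖x + ‖G‖ • w‖ ≤ ‖x + T x‖ + δ * M := by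
      rw [h5]
      refine (norm_add_le _ _).trans (add_le_add le_rfl ?_)
      rw [norm_smul, hn2]
      refine mul_le_mul_of_nonneg_right ?_ hM0
      rw [Real.norm_eq_abs, abs_of_nonneg (by linarith)]
      linarith
    have h7 : δ * (1 + M) = ε := by rw [hδ]; field_simp
    nlinarith

end toD

section pi
variable {ι : Type*} [Fintype ι] [DecidableEq ι] [Nonempty ι]
variable {E : Type*} [NormedAddCommGroup E] [NormedSpace ℝ E]

theorem DP.pi (h : DP E) : DP (ι → E) := by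
  intro e φ ε hε
  set φi : ι → StrongDual ℝ E := fun i => φ.comp (ContinuousLinearMap.single ℝ (fun _ : ι => E) i)
    with hφi
  have hφ : ∀ x : ι → E, φ x = ∑ i, φi i (x i) := by
    intro x
    have h1 : x = ∑ i, Pi.single i (x i) := (Finset.univ_sum_single x).symm
    conv_lhs => rw [h1]
    rw [map_sum]
    rfl
  have hn : ‖φ‖ ≤ ∑ i, ‖φi i‖ := by
    refine φ.opNorm_le_bound (Finset.sum_nonneg fun _ _ => norm_nonneg _) fun x => ?_
    rw [hφ x, Finset.sum_mul]
    refine (norm_sum_le _ _).trans (Finset.sum_le_sum fun i _ => ?_)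
    exact ((φi i).le_opNorm _).trans
      (mul_le_mul_of_nonneg_left (norm_le_pi_norm x i) (norm_nonneg _))
  have hc : (0 : ℝ) < Fintype.card ι := by
    have := Fintype.card_pos (α := ι)
    exact_mod_cast this
  have hc1 : (1 : ℝ) ≤ Fintype.card ι := by
    have := Fintype.card_pos (α := ι)
    exact_mod_cast this
  choose x hx1 hx2 hx3 using fun i => h (e i) (φi i) (ε / Fintype.card ι) (by positivity)
  obtain ⟨i0, hi0⟩ := Finite.exists_max (fun i => ‖e i‖)
  have hen : ‖e‖ ≤ ‖e i0‖ := (pi_norm_le_iff_of_nonneg (norm_nonneg _)).2 hi0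
  refine ⟨x, (pi_norm_le_iff_of_nonneg zero_le_one).2 hx1, ?_, ?_⟩
  · rw [hφ x]
    have h1 : ∑ i, (‖φi i‖ - ε / Fintype.card ι) ≤ ∑ i, φi i (x i) :=
      Finset.sum_le_sum fun i _ => hx2 i
    rw [Finset.sum_sub_distrib, Finset.sum_const, Finset.card_univ, nsmul_eq_mul,
      mul_div_cancel₀ _ hc.ne'] at h1
    linarith
  · have h1 := hx3 i0
    have h2 : ‖x i0 + e i0‖ ≤ ‖x + e‖ := norm_le_pi_norm (x + e) i0
    have h3 : ε / Fintype.card ι ≤ ε := div_le_self hε.le hc1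
    linarith

end pi

section l1
variable {E F : Type*} [NormedAddCommGroup E] [NormedSpace ℝ E] [NormedAddCommGroup F]
  [NormedSpace ℝ F]

theorem DP.prodL1 (hE : DP E) (hF : DP F) : DP (WithLp 1 (E × F)) := by
  intro e φ ε hε
  obtain ⟨⟨e1, e2⟩, rfl⟩ := WithLp.toLp_surjective 1 e
  let iL : E →L[ℝ] WithLp 1 (E × F) :=
    LinearMap.mkContinuous
      { toFun := fun x => WithLp.toLp 1 (x, 0)
        map_add' := fun x y => by
          rw [← WithLp.toLp_add, Prod.mk_add_mk, add_zero]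
        map_smul' := fun c x => by
          rw [RingHom.id_apply, ← WithLp.toLp_smul, Prod.smul_mk, smul_zero] } 1 (fun x => by
        rw [one_mul]
        exact (WithLp.norm_toLp_fst 1 E F x).le)
  let iR : F →L[ℝ] WithLp 1 (E × F) :=
    LinearMap.mkContinuous
      { toFun := fun x => WithLp.toLp 1 (0, x)
        map_add' := fun x y => by
          rw [← WithLp.toLp_add, Prod.mk_add_mk, add_zero]
        map_smul' := fun c x => by
          rw [RingHom.id_apply, ← WithLp.toLp_smul, Prod.smul_mk, smul_zero] } 1 (fun x => by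
        rw [one_mul]
        exact (WithLp.norm_toLp_snd 1 E F x).le)
  have hiL : ∀ x, iL x = WithLp.toLp 1 (x, 0) := fun _ => rfl
  have hiR : ∀ x, iR x = WithLp.toLp 1 (0, x) := fun _ => rfl
  have hnorm : ∀ (x : E) (y : F), ‖WithLp.toLp 1 (x, y)‖ = ‖x‖ + ‖y‖ := fun x y =>
    WithLp.prod_norm_eq_of_L1 _
  set φ1 : StrongDual ℝ E := φ.comp iL with hφ1
  set φ2 : StrongDual ℝ F := φ.comp iR with hφ2
  have hn : ‖φ‖ ≤ max ‖φ1‖ ‖φ2‖ := by
    refine φ.opNorm_le_bound (le_max_of_le_left (norm_nonneg _)) fun z => ?_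
    obtain ⟨⟨x, y⟩, rfl⟩ := WithLp.toLp_surjective 1 z
    have h1 : WithLp.toLp 1 (x, y) = iL x + iR y := by
      rw [hiL, hiR, ← WithLp.toLp_add, Prod.mk_add_mk, add_zero, zero_add]
    have h2 : φ (WithLp.toLp 1 (x, y)) = φ1 x + φ2 y := by rw [h1, map_add]; rfl
    rw [h2, hnorm, mul_add]
    refine (norm_add_le _ _).trans (add_le_add ?_ ?_)
    · exact (φ1.le_opNorm x).trans (mul_le_mul_of_nonneg_right (le_max_left _ _) (norm_nonneg _))
    · exact (φ2.le_opNorm y).trans (mul_le_mul_of_nonneg_right (le_max_right _ _) (norm_nonneg _))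
  rcases le_total ‖φ2‖ ‖φ1‖ with hle | hle
  · rw [max_eq_left hle] at hn
    obtain ⟨x, hx1, hx2, hx3⟩ := hE e1 φ1 ε hε
    refine ⟨iL x, ?_, ?_, ?_⟩
    · rw [hiL, hnorm, norm_zero, add_zero]; exact hx1
    · have : φ (iL x) = φ1 x := rfl
      rw [this]; linarith
    · rw [hiL, ← WithLp.toLp_add, Prod.mk_add_mk, zero_add, hnorm, hnorm]
      linarith
  · rw [max_eq_right hle] at hn
    obtain ⟨x, hx1, hx2, hx3⟩ := hF e2 φ2 ε hε
    refine ⟨iR x, ?_, ?_, ?_⟩
    · rw [hiR, hnorm, norm_zero, zero_add]; exact hx1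
    · have : φ (iR x) = φ2 x := rfl
      rw [this]; linarith
    · rw [hiR, ← WithLp.toLp_add, Prod.mk_add_mk, zero_add, hnorm, hnorm]
      linarith

end l1

end Pool.Agent.W700.Dau
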