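import Mathlib
import Pool.Agent.W700.Dau.DP

/-!
# `C[0,1]` has the Daugavet property
-/

set_option autoImplicit false

open Pool.Agent.H130R4.DA

namespace Pool.Agent.W700.Dau

theorem exists_near_norming {E : Type*} [NormedAddCommGroup E] [NormedSpace ℝ E]
    (φ : StrongDual ℝ E) (ε : ℝ) (hε : 0 < ε) : ∃ x : E, ‖x‖ ≤ 1 ∧ ‖φ‖ - ε ≤ φ x := by
  obtain ⟨x, hx, hx'⟩ := ContinuousLinearMap.exists_lt_apply_of_lt_opNorm φ
    (show ‖φ‖ - ε < ‖φ‖ by linarith)
  rcases le_total 0 (φ x) with h | h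
  · refine ⟨x, hx.le, ?_⟩
    rw [Real.norm_eq_abs, abs_of_nonneg h] at hx'
    exact hx'.le
  · refine ⟨-x, by rw [norm_neg]; exact hx.le, ?_⟩
    rw [Real.norm_eq_abs, abs_of_nonpos h] at hx'
    rw [map_neg]
    exact hx'.le

theorem dp_C : DP C(unitInterval, ℝ) := by
  intro e φ ε hε
  -- a point where `|e|` is maximal
  obtain ⟨s0, -, hs0⟩ := isCompact_univ.exists_isMaxOn (Set.univ_nonempty (α := unitInterval))
    (f := fun s => ‖e s‖) (by fun_prop)
  have hs0' : ‖e‖ ≤ ‖e s0‖ := (ContinuousMap.norm_le _ (norm_nonneg _)).2 fun s => hs0 (Set.mem_univ s)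
  obtain ⟨σ, hσ1, hσ2⟩ : ∃ σ : ℝ, (σ = 1 ∨ σ = -1) ∧ σ * e s0 = ‖e s0‖ := by
    rcases le_total 0 (e s0) with h | h
    · exact ⟨1, Or.inl rfl, by rw [Real.norm_eq_abs, abs_of_nonneg h, one_mul]⟩
    · exact ⟨-1, Or.inr rfl, by rw [Real.norm_eq_abs, abs_of_nonpos h]; ring⟩
  have hσa : |σ| = 1 := by rcases hσ1 with h | h <;> rw [h] <;> norm_num
  have hσσ : σ * σ = 1 := by rcases hσ1 with h | h <;> rw [h] <;> norm_num
  -- a neighbourhood
  obtain ⟨δ, hδ0, hδ⟩ := Metric.continuousAt_iff.1 (e.continuous.continuousAt (x := s0)) ε hε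
  obtain ⟨x0, hx0, hφx0⟩ := exists_near_norming φ (ε / 2) (by linarith)
  have hx0' : ∀ s, |x0 s| ≤ 1 := fun s => by
    have := (ContinuousMap.norm_coe_le_norm x0 s).trans hx0
    rwa [Real.norm_eq_abs] at this
  -- number of bumps
  set N : ℕ := ⌈4 * ‖φ‖ / ε⌉₊ + 1 with hN
  have hN0 : (0 : ℝ) < N := by rw [hN]; positivity
  have hN1 : 2 * ‖φ‖ ≤ N * (ε / 2) := by
    have h1 : 4 * ‖φ‖ / ε ≤ N := by
      rw [hN]; push_cast
      have := Nat.le_ceil (4 * ‖φ‖ / ε)
      linarith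
    rw [div_le_iff₀ hε] at h1
    linarith
  set τ : ℝ := min (δ / 2) (1 / 2) with hτ
  have hτ0 : 0 < τ := lt_min (by linarith) (by norm_num)
  have hτ1 : τ ≤ δ / 2 := min_le_left _ _
  have hτ2 : τ ≤ 1 / 2 := min_le_right _ _
  set r : ℝ := τ / (2 * (N + 1)) with hr
  have hr0 : 0 < r := by positivity
  have hr1 : 2 * r * (N + 1) = τ := by rw [hr]; field_simp
  let a : Fin N → ℝ := fun i => 2 * r * ((i : ℕ) + 1)
  have ha0 : ∀ i, 0 < a i := fun i => by positivity
  have ha1 : ∀ i, a i < τ := fun i => by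
    have h1 : ((i : ℕ) : ℝ) < N := by exact_mod_cast i.2
    rw [← hr1]
    exact mul_lt_mul_of_pos_left (by linarith) (by positivity)
  let χ : Fin N → C(unitInterval, ℝ) := fun i =>
    ⟨fun s => max 0 (1 - |(|(s : ℝ) - s0|) - a i| / r), by fun_prop⟩
  have hχ : ∀ i s, χ i s = max 0 (1 - |(|(s : ℝ) - s0|) - a i| / r) := fun _ _ => rfl
  have hχ0 : ∀ i s, 0 ≤ χ i s := fun i s => le_max_left _ _
  have hχ1 : ∀ i s, χ i s ≤ 1 := fun i s => by
    rw [hχ]
    refine max_le zero_le_one ?_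
    have : 0 ≤ |(|(s : ℝ) - s0|) - a i| / r := by positivity
    linarith
  have hχne : ∀ i s, χ i s ≠ 0 → |(|(s : ℝ) - s0|) - a i| < r := by
    intro i s h
    by_contra hcon
    push Not at hcon
    apply h
    rw [hχ]
    refine max_eq_left ?_
    have : 1 ≤ |(|(s : ℝ) - s0|) - a i| / r := by rwa [le_div_iff₀ hr0, one_mul]
    linarith
  have hχdisj : ∀ i j s, χ i s ≠ 0 → χ j s ≠ 0 → i = j := by
    intro i j s hi hj
    have h1 := abs_lt.1 (hχne i s hi)
    have h2 := abs_lt.1 (hχne j s hj)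
    by_contra hij
    rcases lt_or_gt_of_ne (fun h => hij (Fin.ext h) : (i : ℕ) ≠ j) with h | h
    · have h3 : ((i : ℕ) : ℝ) + 1 ≤ (j : ℕ) := by exact_mod_cast h
      have h4 : a i + 2 * r ≤ a j := by
        have : 2 * r * (((i : ℕ) : ℝ) + 1 + 1) ≤ 2 * r * (((j : ℕ) : ℝ) + 1) :=
          mul_le_mul_of_nonneg_left (by linarith) (by positivity)
        simp only [a]
        linarith
      linarith
    · have h3 : ((j : ℕ) : ℝ) + 1 ≤ (i : ℕ) := by exact_mod_cast h
      have h4 : a j + 2 * r ≤ a i := by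
        have : 2 * r * (((j : ℕ) : ℝ) + 1 + 1) ≤ 2 * r * (((i : ℕ) : ℝ) + 1) :=
          mul_le_mul_of_nonneg_left (by linarith) (by positivity)
        simp only [a]
        linarith
      linarith
  have hχsum : ∀ s, ∑ i, χ i s ≤ 1 := by
    intro s
    by_cases h : ∃ i, χ i s ≠ 0
    · obtain ⟨i, hi⟩ := h
      rw [Finset.sum_eq_single i]
      · exact hχ1 i s
      · intro j _ hj
        by_contra hcon
        exact hj (hχdisj j i s hcon hi)
      · intro h; exact absurd (Finset.mem_univ i) h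
    · push Not at h
      rw [Finset.sum_eq_zero fun i _ => h i]
      exact zero_le_one
  let hh : Fin N → C(unitInterval, ℝ) := fun i => χ i * (ContinuousMap.const _ σ - x0)
  have hhh : ∀ i s, hh i s = χ i s * (σ - x0 s) := fun _ _ => rfl
  have hsum : ∑ i, |φ (hh i)| ≤ 2 * ‖φ‖ := by
    let sg : Fin N → ℝ := fun i => if 0 ≤ φ (hh i) then 1 else -1
    have hsg : ∀ i, |φ (hh i)| = sg i * φ (hh i) := by
      intro i
      simp only [sg]
      split_ifs with h
      · rw [abs_of_nonneg h, one_mul]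
      · rw [abs_of_neg (lt_of_not_ge h)]; ring
    have hsg1 : ∀ i, |sg i| = 1 := by
      intro i
      simp only [sg]
      split_ifs <;> norm_num
    have h1 : ∑ i, |φ (hh i)| = φ (∑ i, sg i • hh i) := by
      rw [map_sum]
      exact Finset.sum_congr rfl fun i _ => by rw [hsg i, map_smul, smul_eq_mul]
    rw [h1]
    have h2 : ‖∑ i, sg i • hh i‖ ≤ 2 := by
      rw [ContinuousMap.norm_le _ (by norm_num)]
      intro s
      rw [ContinuousMap.sum_apply]
      refine (norm_sum_le _ _).trans ?_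
      calc ∑ i, ‖(sg i • hh i) s‖ ≤ ∑ i, χ i s * 2 := by
            refine Finset.sum_le_sum fun i _ => ?_
            rw [ContinuousMap.smul_apply, smul_eq_mul, hhh, Real.norm_eq_abs, abs_mul, hsg1,
              one_mul, abs_mul, abs_of_nonneg (hχ0 i s)]
            refine mul_le_mul_of_nonneg_left ?_ (hχ0 i s)
            calc |σ - x0 s| ≤ |σ| + |x0 s| := abs_sub _ _
              _ ≤ 2 := by rw [hσa]; linarith [hx0' s]
        _ = (∑ i, χ i s) * 2 := by rw [Finset.sum_mul]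
        _ ≤ 2 := by linarith [hχsum s]
    calc φ (∑ i, sg i • hh i) ≤ ‖φ‖ * ‖∑ i, sg i • hh i‖ :=
          (le_abs_self _).trans (φ.le_opNorm _)
      _ ≤ ‖φ‖ * 2 := mul_le_mul_of_nonneg_left h2 (norm_nonneg _)
      _ = 2 * ‖φ‖ := mul_comm _ _
  obtain ⟨i, -, hi⟩ : ∃ i ∈ (Finset.univ : Finset (Fin N)), |φ (hh i)| ≤ ε / 2 := by
    refine Finset.exists_le_of_sum_le ?_ ?_
    · refine ⟨⟨0, ?_⟩, Finset.mem_univ _⟩
      rw [hN]; exact Nat.succ_pos _
    · rw [Finset.sum_const, Finset.card_univ, Fintype.card_fin, nsmul_eq_mul]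
      exact hsum.trans hN1
  -- the point
  obtain ⟨s1, hs1⟩ : ∃ s1 : unitInterval, |(s1 : ℝ) - s0| = a i := by
    have h1 := ha0 i
    have h2 := ha1 i
    have h3 := s0.2.1
    have h4 := s0.2.2
    rcases le_total (s0 : ℝ) (1 / 2) with h | h
    · refine ⟨⟨(s0 : ℝ) + a i, ⟨by linarith, by linarith⟩⟩, ?_⟩
      show |(s0 : ℝ) + a i - s0| = a i
      rw [add_sub_cancel_left, abs_of_pos h1]
    · refine ⟨⟨(s0 : ℝ) - a i, ⟨by linarith, by linarith⟩⟩, ?_⟩
      show |(s0 : ℝ) - a i - s0| = a i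
      rw [show (s0 : ℝ) - a i - s0 = -(a i) by ring, abs_neg, abs_of_pos h1]
  have hχs1 : χ i s1 = 1 := by
    rw [hχ, hs1]
    simp
  refine ⟨x0 + hh i, ?_, ?_, ?_⟩
  · rw [ContinuousMap.norm_le _ zero_le_one]
    intro s
    have h1 : (x0 + hh i) s = (1 - χ i s) * x0 s + χ i s * σ := by
      rw [ContinuousMap.add_apply, hhh]; ring
    rw [h1, Real.norm_eq_abs]
    calc |(1 - χ i s) * x0 s + χ i s * σ| ≤ |(1 - χ i s) * x0 s| + |χ i s * σ| := abs_add_le _ _
      _ = (1 - χ i s) * |x0 s| + χ i s := by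
          rw [abs_mul, abs_mul, hσa, abs_of_nonneg (hχ0 i s),
            abs_of_nonneg (by linarith [hχ1 i s]), mul_one]
      _ ≤ (1 - χ i s) * 1 + χ i s := by
          have := mul_le_mul_of_nonneg_left (hx0' s) (show 0 ≤ 1 - χ i s by linarith [hχ1 i s])
          linarith
      _ = 1 := by ring
  · rw [map_add]
    have := (abs_le.1 hi).1
    linarith
  · have h1 : (x0 + hh i + e) s1 = σ + e s1 := by
      rw [ContinuousMap.add_apply, ContinuousMap.add_apply, hhh, hχs1]; ring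
    have h2 : ‖(x0 + hh i + e) s1‖ ≤ ‖x0 + hh i + e‖ := ContinuousMap.norm_coe_le_norm _ _
    rw [h1] at h2
    have h3 : dist (e s1) (e s0) < ε := by
      apply hδ
      rw [Subtype.dist_eq, Real.dist_eq, hs1]
      linarith [ha1 i]
    rw [Real.dist_eq] at h3
    have h4 : σ * (σ + e s1) ≤ ‖σ + e s1‖ := by
      refine (le_abs_self _).trans ?_
      rw [abs_mul, hσa, one_mul]
      exact le_rfl
    have h5 : σ * (e s1 - e s0) ≥ -ε := by
      have : |σ * (e s1 - e s0)| < ε := by rw [abs_mul, hσa, one_mul]; exact h3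
      exact (abs_lt.1 this).1.le
    have h6 : σ * (σ + e s1) = 1 + σ * e s0 + σ * (e s1 - e s0) := by
      linear_combination hσσ
    linarith

end Pool.Agent.W700.Dau
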