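import Mathlib

/-!
# Finite combinatorics of sign vectors of length five
-/

set_option autoImplicit false

namespace Pool.Agent.W700.Dau

abbrev I := Fin 5
abbrev J := Fin 5 → Bool

/-- the sign of a Boolean -/
def sg (b : Bool) : ℤ := if b then 1 else -1

/-- product of sign vectors -/
def mulJ (a b : J) : J := fun k => a k == b k

/-- the vector with signs `b`, with the coordinate `o` (if any) replaced by `0` -/
def vec (b : J) (o : Option I) : I → ℤ := fun k => if o = some k then 0 else sg (b k)

/-- sum of coordinates -/
def ssum (z : I → ℤ) : ℤ := ∑ k, z k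

/-- sum of all differences -/
def dsum (z : I → ℤ) : ℤ := ∑ k, ∑ l, |z k - z l|

theorem F1 : ∀ o : Option I, ∑ z : J, (if ssum (vec z o) = 0 then dsum (vec z o) else
    24 * |ssum (vec z o)|) = 1440 := by decide +kernel

theorem F2 : ∑ z : J, max (24 * |ssum (vec z none)|) (dsum (vec z none)) = 1440 := by
  decide +kernel

theorem F3 : ∀ i k l : I, k ≠ i → l ≠ i → ∃ z : J, ssum (vec z (some i)) = 0 ∧ z k = z l := by
  decide +kernel

theorem F4 : ∀ k l m : I, ∑ z : J, (if |ssum (vec z none)| = 1 then
    (vec z none k - vec z none l).sign * vec z none m else 0) =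
    12 * ((if m = k then 1 else 0) - (if m = l then 1 else 0)) := by
  decide +kernel

theorem F5 : ∀ m : I, ∑ z : J, (if |ssum (vec z none)| = 1 then
    (ssum (vec z none)).sign * vec z none m else 0) = 4 := by
  decide +kernel

theorem F5' : ∑ z : J, (if |ssum (vec z none)| = 1 then (1 : ℤ) else 0) = 20 := by
  decide +kernel

theorem F6 : ∀ m : I, ∑ z : J, (ssum (vec z none)).sign * vec z none m = 12 := by
  decide +kernel

theorem F7 : ∀ z : J, ssum (vec z none) ≠ 0 := by decide +kernel

end Pool.Agent.W700.Dau
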