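import Mathlib
import Pool.Agent.W700.Dau.Comb

/-!
# The main estimate
-/

set_option autoImplicit false

open WithLp

namespace Pool.Agent.W700.Dau

theorem sg_mulJ (a b : J) (k : I) : sg (mulJ a b k) = sg (a k) * sg (b k) := by
  unfold mulJ sg
  cases a k <;> cases b k <;> simp

theorem sg_sq (b : Bool) : sg b * sg b = 1 := by cases b <;> simp [sg]

theorem mulJ_mulJ (a b : J) : mulJ a (mulJ a b) = b := by
  funext k
  unfold mulJ
  cases a k <;> cases b k <;> rfl

theorem vec_mulJ (a b : J) (o : Option I) (k : I) :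
    vec (mulJ a b) o k = sg (a k) * vec b o k := by
  unfold vec
  split_ifs
  · simp
  · rw [sg_mulJ]

/-- multiplication by a sign vector as a permutation -/
def mulE (a : J) : J ≃ J := ⟨mulJ a, mulJ a, mulJ_mulJ a, mulJ_mulJ a⟩

theorem abs_sign_le (z : ℤ) : |((z.sign : ℤ) : ℝ)| ≤ 1 := by
  rcases lt_trichotomy z 0 with h | h | h
  · rw [Int.sign_eq_neg_one_of_neg h]; norm_num
  · rw [h]; norm_num
  · rw [Int.sign_eq_one_of_pos h]; norm_num

section spaces

variable (B : Type) [NormedAddCommGroup B] [NormedSpace ℝ B]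

/-- the first space -/
abbrev XX := I → B

/-- the summands of the second space -/
abbrev AA := WithLp 1 ((I × I → B) × B)

/-- the second space -/
abbrev YY := J → AA B

variable {B}

theorem norm_AA (f : I × I → B) (g : B) : ‖(toLp 1 (f, g) : AA B)‖ = ‖f‖ + ‖g‖ :=
  prod_norm_eq_of_L1 _

/-- embedding of the first part of a summand -/
def cY (θ : J) : (I × I → B) →ₗ[ℝ] YY B where
  toFun f := Pi.single θ (toLp 1 (f, 0))
  map_add' f g := by
    rw [← Pi.single_add, ← toLp_add, Prod.mk_add_mk, add_zero]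
  map_smul' c f := by
    rw [RingHom.id_apply, ← Pi.single_smul, ← toLp_smul, Prod.smul_mk, smul_zero]

/-- embedding of the second part of a summand -/
def lY (θ : J) : B →ₗ[ℝ] YY B where
  toFun g := Pi.single θ (toLp 1 (0, g))
  map_add' f g := by
    rw [← Pi.single_add, ← toLp_add, Prod.mk_add_mk, add_zero]
  map_smul' c f := by
    rw [RingHom.id_apply, ← Pi.single_smul, ← toLp_smul, Prod.smul_mk, smul_zero]

theorem cY_same (θ : J) (f : I × I → B) : cY θ f θ = toLp 1 (f, 0) := Pi.single_eq_same _ _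

theorem cY_ne {θ θ' : J} (h : θ' ≠ θ) (f : I × I → B) : cY θ f θ' = 0 :=
  Pi.single_eq_of_ne h _

theorem lY_same (θ : J) (g : B) : lY θ g θ = toLp 1 (0, g) := Pi.single_eq_same _ _

theorem lY_ne {θ θ' : J} (h : θ' ≠ θ) (g : B) : lY θ g θ' = 0 :=
  Pi.single_eq_of_ne h _

theorem yy_decomp (y : YY B) : y = ∑ θ, (cY θ (y θ).fst + lY θ (y θ).snd) := by
  have h : ∀ θ : J, cY θ (y θ).fst + lY θ (y θ).snd = Pi.single θ (y θ) := by
    intro θ
    show (Pi.single θ (toLp 1 ((y θ).fst, 0)) : YY B) +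
      Pi.single θ (toLp 1 (0, (y θ).snd)) = _
    rw [← Pi.single_add, ← toLp_add, Prod.mk_add_mk, add_zero, zero_add]
    rfl
  rw [Finset.sum_congr rfl fun θ _ => h θ]
  exact (Finset.univ_sum_single y).symm

theorem norm_YY_le {y : YY B} (h : ∀ θ, ‖y θ‖ ≤ 1) : ‖y‖ ≤ 1 :=
  (pi_norm_le_iff_of_nonneg zero_le_one).2 h

theorem norm_fun_le {f : I × I → B} (h : ∀ p, ‖f p‖ ≤ 1) : ‖f‖ ≤ 1 :=
  (pi_norm_le_iff_of_nonneg zero_le_one).2 h

/-- the vectors `x` -/
noncomputable def xel (e : B) (b : J) (o : Option I) : XX B := fun k => (vec b o k : ℝ) • e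

/-- the sign pattern -/
noncomputable def patt (e : B) (z : I → ℤ) : I × I → B :=
  fun p => (((z p.1 - z p.2).sign : ℤ) : ℝ) • e

/-- the vectors `y` -/
noncomputable def yel (e : B) (b : J) (o : Option I) : YY B := fun θ =>
  if ssum (vec (mulJ θ b) o) = 0 then toLp 1 (patt e (vec (mulJ θ b) o), 0)
  else toLp 1 (0, (((ssum (vec (mulJ θ b) o)).sign : ℤ) : ℝ) • e)

theorem norm_sign_smul {e : B} (he : ‖e‖ = 1) (z : ℤ) : ‖((z.sign : ℤ) : ℝ) • e‖ ≤ 1 := by
  rw [norm_smul, he, mul_one, Real.norm_eq_abs]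
  exact abs_sign_le z

theorem norm_patt {e : B} (he : ‖e‖ = 1) (z : I → ℤ) (p : I × I) : ‖patt e z p‖ ≤ 1 :=
  norm_sign_smul he _

theorem norm_patt' {e : B} (he : ‖e‖ = 1) (z : I → ℤ) : ‖patt e z‖ ≤ 1 :=
  norm_fun_le fun p => norm_patt he z p

theorem norm_yel_apply {e : B} (he : ‖e‖ = 1) (b : J) (o : Option I) (θ : J) :
    ‖yel e b o θ‖ ≤ 1 := by
  unfold yel
  split_ifs
  · rw [norm_AA, norm_zero, add_zero]
    exact norm_patt' he _
  · rw [norm_AA, norm_zero, zero_add]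
    exact norm_sign_smul he _

theorem norm_yel {e : B} (he : ‖e‖ = 1) (b : J) (o : Option I) : ‖yel e b o‖ ≤ 1 :=
  norm_YY_le fun θ => norm_yel_apply he b o θ

theorem norm_vec_smul {e : B} (he : ‖e‖ = 1) (b : J) (o : Option I) (k : I) :
    ‖(vec b o k : ℝ) • e‖ ≤ 1 := by
  rw [norm_smul, he, mul_one, Real.norm_eq_abs]
  unfold vec
  split_ifs
  · norm_num
  · cases b k <;> simp [sg]

theorem norm_xel {e : B} (he : ‖e‖ = 1) (b : J) (o : Option I) : ‖xel e b o‖ ≤ 1 :=
  (pi_norm_le_iff_of_nonneg zero_le_one).2 fun k => norm_vec_smul he b o k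

/-- A one-zero vector plus or minus a vector supported on that coordinate. -/
theorem norm_xel_add {e : B} (he : ‖e‖ = 1) (b : J) (i : I) (h : B) (hh : ‖h‖ ≤ 1) :
    ‖xel e b (some i) + Pi.single i h‖ ≤ 1 := by
  refine (pi_norm_le_iff_of_nonneg zero_le_one).2 fun k => ?_
  rw [Pi.add_apply]
  by_cases hk : k = i
  · subst hk
    rw [Pi.single_eq_same]
    have : xel e b (some k) k = 0 := by
      unfold xel vec
      simp
    rw [this, zero_add]
    exact hh
  · rw [Pi.single_eq_of_ne hk, add_zero]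
    exact norm_vec_smul he b _ k

theorem norm_xel_sub {e : B} (he : ‖e‖ = 1) (b : J) (i : I) (h : B) (hh : ‖h‖ ≤ 1) :
    ‖xel e b (some i) - Pi.single i h‖ ≤ 1 := by
  have h1 : xel e b (some i) - Pi.single i h = xel e b (some i) + Pi.single i (-h) := by
    rw [Pi.single_neg, sub_eq_add_neg]
  rw [h1]
  exact norm_xel_add he b i _ (by rwa [norm_neg])

end spaces

end Pool.Agent.W700.Dau
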