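import Mathlib
import Pool.Agent.W700.Dau.Main

/-!
# Near-maximal bilinear forms
-/

set_option autoImplicit false

open WithLp

namespace Pool.Agent.W700.Dau

section form

variable {B : Type} [NormedAddCommGroup B] [NormedSpace ℝ B]
variable {b : XX B →L[ℝ] StrongDual ℝ (YY B)}

theorem bd1 (hb : ∀ x, ‖b x‖ ≤ ‖x‖) {x : XX B} {y : YY B} (hx : ‖x‖ ≤ 1) (hy : ‖y‖ ≤ 1) :
    |b x y| ≤ 1 := by
  have h1 := (b x).le_opNorm y
  rw [Real.norm_eq_abs] at h1
  calc |b x y| ≤ ‖b x‖ * ‖y‖ := h1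
    _ ≤ 1 * 1 := mul_le_mul ((hb x).trans hx) hy (norm_nonneg _) zero_le_one
    _ = 1 := one_mul 1

theorem avg (hb : ∀ x, ‖b x‖ ≤ ‖x‖) {x h : XX B} {y f : YY B} (h1 : ‖x + h‖ ≤ 1)
    (h2 : ‖x - h‖ ≤ 1) (h3 : ‖y + f‖ ≤ 1) (h4 : ‖y - f‖ ≤ 1) : |b h f| ≤ 1 - b x y := by
  have e1 := (abs_le.1 (bd1 hb h1 h3)).2
  have e2 := (abs_le.1 (bd1 hb h2 h4)).2
  have e3 := (abs_le.1 (bd1 hb h1 h4)).2
  have e4 := (abs_le.1 (bd1 hb h2 h3)).2
  simp only [map_add, map_sub, add_apply, sub_apply] at e1 e2 e3 e4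
  rw [abs_le]
  constructor <;> linarith

variable (b) in
/-- coefficients on the first parts -/
noncomputable def ca (e : B) (θ : J) (m : I) (p : I × I) : ℝ :=
  (sg (θ m) : ℝ) * b (Pi.single m e) (cY θ (Pi.single p e))

variable (b) in
/-- coefficients on the second parts -/
noncomputable def cw (e : B) (θ : J) (m : I) : ℝ :=
  (sg (θ m) : ℝ) * b (Pi.single m e) (lY θ e)

theorem b_xel (e : B) (x : J) (o : Option I) (y : YY B) :
    b (xel e x o) y = ∑ m, (vec x o m : ℝ) * b (Pi.single m e) y := by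
  have h1 : xel e x o = ∑ m, (vec x o m : ℝ) • (Pi.single m e : XX B) := by
    have h2 := (Finset.univ_sum_single (xel e x o)).symm
    rw [h2]
    refine Finset.sum_congr rfl fun m _ => ?_
    rw [← Pi.single_smul]
    rfl
  rw [h1, map_sum, _root_.sum_apply]
  refine Finset.sum_congr rfl fun m _ => ?_
  rw [map_smul]
  rfl

theorem b_xel_mul (e : B) (θ z : J) (o : Option I) (y : YY B) :
    b (xel e (mulJ θ z) o) y =
      ∑ m, (vec z o m : ℝ) * ((sg (θ m) : ℝ) * b (Pi.single m e) y) := by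
  rw [b_xel]
  refine Finset.sum_congr rfl fun m _ => ?_
  rw [vec_mulJ]
  push_cast
  ring

theorem b_cY (x : XX B) (θ : J) (f : I × I → B) :
    b x (cY θ f) = ∑ p, b x (cY θ (Pi.single p (f p))) := by
  have h2 := (Finset.univ_sum_single f).symm
  conv_lhs => rw [h2]
  rw [map_sum, map_sum]

theorem b_cY_coef (x : XX B) (θ : J) (e : B) (c : I × I → ℝ) :
    b x (cY θ (fun p => c p • e)) = ∑ p, c p * b x (cY θ (Pi.single p e)) := by
  rw [b_cY]
  refine Finset.sum_congr rfl fun p _ => ?_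
  rw [Pi.single_smul, map_smul, map_smul]
  rfl

theorem b_xc (e : B) (θ z : J) (o : Option I) (c : I × I → ℝ) :
    b (xel e (mulJ θ z) o) (cY θ (fun p => c p • e)) =
      ∑ p, ∑ m, c p * (vec z o m : ℝ) * ca b e θ m p := by
  rw [b_cY_coef]
  refine Finset.sum_congr rfl fun p _ => ?_
  rw [b_xel_mul, Finset.mul_sum]
  refine Finset.sum_congr rfl fun m _ => ?_
  unfold ca
  ring

theorem b_xl (e : B) (θ z : J) (o : Option I) (c : ℝ) :
    b (xel e (mulJ θ z) o) (lY θ (c • e)) = ∑ m, c * (vec z o m : ℝ) * cw b e θ m := by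
  rw [map_smul, map_smul, smul_eq_mul, b_xel_mul, Finset.mul_sum]
  refine Finset.sum_congr rfl fun m _ => ?_
  unfold cw
  ring

end form

section near

variable {B : Type} [NormedAddCommGroup B] [NormedSpace ℝ B]
variable {b : XX B →L[ℝ] StrongDual ℝ (YY B)} {e : B} {η : ℝ}

theorem yel_same_zero (e : B) (θ z : J) (o : Option I) (hz : ssum (vec z o) = 0) :
    yel e (mulJ θ z) o θ = toLp 1 (patt e (vec z o), 0) := by
  unfold yel
  rw [mulJ_mulJ, if_pos hz]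

theorem yel_same_ne (e : B) (θ z : J) (o : Option I) (hz : ssum (vec z o) ≠ 0) :
    yel e (mulJ θ z) o θ = toLp 1 (0, (((ssum (vec z o)).sign : ℤ) : ℝ) • e) := by
  unfold yel
  rw [mulJ_mulJ, if_neg hz]

theorem norm_modify (he : ‖e‖ = 1) (θ z : J) (o : Option I) (hz : ssum (vec z o) = 0)
    (f : I × I → B) (hf : ∀ p, ‖patt e (vec z o) p + f p‖ ≤ 1) :
    ‖yel e (mulJ θ z) o + cY θ f‖ ≤ 1 := by
  refine norm_YY_le fun θ' => ?_
  rw [Pi.add_apply]
  by_cases h : θ' = θ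
  · subst h
    rw [cY_same, yel_same_zero e _ z o hz, ← toLp_add, Prod.mk_add_mk, add_zero, norm_AA,
      norm_zero, add_zero]
    exact norm_fun_le hf
  · rw [cY_ne h, add_zero]
    exact norm_yel_apply he _ _ _

theorem kill (hb : ∀ x, ‖b x‖ ≤ ‖x‖) (he : ‖e‖ = 1)
    (H : ∀ (x : J) (o : Option I), 1 - η ≤ b (xel e x o) (yel e x o))
    (θ : J) (i : I) (z : J) (hz : ssum (vec z (some i)) = 0) (p : I × I)
    (hp : vec z (some i) p.1 = vec z (some i) p.2) (h : B) (hh : ‖h‖ ≤ 1) (g : B)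
    (hg : ‖g‖ ≤ 1) : |b (Pi.single i h) (cY θ (Pi.single p g))| ≤ η := by
  have hpz : patt e (vec z (some i)) p = 0 := by
    unfold patt
    rw [hp, sub_self]
    simp
  have key : ∀ g : B, ‖g‖ ≤ 1 → ‖yel e (mulJ θ z) (some i) + cY θ (Pi.single p g)‖ ≤ 1 := by
    intro g hg
    refine norm_modify he θ z (some i) hz _ fun q => ?_
    by_cases hq : q = p
    · subst hq
      rw [hpz, zero_add, Pi.single_eq_same]
      exact hg
    · rw [Pi.single_eq_of_ne hq, add_zero]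
      exact norm_patt he _ _
  have h1 := avg hb (norm_xel_add he (mulJ θ z) i h hh) (norm_xel_sub he (mulJ θ z) i h hh)
    (key g hg) (f := cY θ (Pi.single p g)) (by
      have h2 := key (-g) (by rwa [norm_neg])
      rwa [Pi.single_neg, map_neg, ← sub_eq_add_neg] at h2)
  have h2 := H (mulJ θ z) (some i)
  linarith

theorem kill' (hb : ∀ x, ‖b x‖ ≤ ‖x‖) (he : ‖e‖ = 1)
    (H : ∀ (x : J) (o : Option I), 1 - η ≤ b (xel e x o) (yel e x o))
    (θ : J) (i : I) (p : I × I) (hp : (p.1 ≠ i ∧ p.2 ≠ i) ∨ (p.1 = i ∧ p.2 = i)) (h : B)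
    (hh : ‖h‖ ≤ 1) (g : B) (hg : ‖g‖ ≤ 1) :
    |b (Pi.single i h) (cY θ (Pi.single p g))| ≤ η := by
  rcases hp with ⟨h1, h2⟩ | ⟨h1, h2⟩
  · obtain ⟨z, hz, hz'⟩ := F3 i p.1 p.2 h1 h2
    refine kill hb he H θ i z hz p ?_ h hh g hg
    unfold vec
    rw [if_neg (fun hc => h1 (Option.some.inj hc).symm),
      if_neg (fun hc => h2 (Option.some.inj hc).symm), hz']
  · have hne : ∀ i : I, i + 1 ≠ i := by decide
    obtain ⟨z, hz, -⟩ := F3 i (i + 1) (i + 1) (hne i) (hne i)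
    exact kill hb he H θ i z hz p (by rw [h1, h2]) h hh g hg

theorem ca_small (hb : ∀ x, ‖b x‖ ≤ ‖x‖) (he : ‖e‖ = 1)
    (H : ∀ (x : J) (o : Option I), 1 - η ≤ b (xel e x o) (yel e x o))
    (θ : J) (m : I) (p : I × I) (h1 : p.1 ≠ m) (h2 : p.2 ≠ m) : |ca b e θ m p| ≤ η := by
  have h3 := kill' hb he H θ m p (Or.inl ⟨h1, h2⟩) e he.le e he.le
  unfold ca
  rw [abs_mul]
  have h4 : |(sg (θ m) : ℝ)| = 1 := by cases θ m <;> simp [sg]
  rw [h4, one_mul]
  exact h3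

end near

end Pool.Agent.W700.Dau
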