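import Mathlib
import Pool.Agent.W700.Dau.Form

/-!
# The extremal bilinear form
-/

set_option autoImplicit false

open WithLp

namespace Pool.Agent.W700.Dau

/-- the linear part -/
def lin (θ : J) (a : I → ℝ) : ℝ := ∑ k, (sg (θ k) : ℝ) * a k

/-- the differences -/
def dif (θ : J) (a : I → ℝ) (p : I × I) : ℝ :=
  (sg (θ p.1) : ℝ) * a p.1 - (sg (θ p.2) : ℝ) * a p.2

/-- the norm of the extremal form -/
noncomputable def Psi (a : I → ℝ) : ℝ :=
  ∑ θ : J, max (1 / 60 * |lin θ a|) (1 / 1440 * ∑ p : I × I, |dif θ a p|)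

theorem lin_comb (θ : J) (a c : I → ℝ) (s t : ℝ) :
    lin θ (s • a + t • c) = s * lin θ a + t * lin θ c := by
  unfold lin
  rw [Finset.mul_sum, Finset.mul_sum, ← Finset.sum_add_distrib]
  refine Finset.sum_congr rfl fun k _ => ?_
  simp only [Pi.add_apply, Pi.smul_apply, smul_eq_mul]
  ring

theorem dif_comb (θ : J) (a c : I → ℝ) (s t : ℝ) (p : I × I) :
    dif θ (s • a + t • c) p = s * dif θ a p + t * dif θ c p := by
  unfold dif
  simp only [Pi.add_apply, Pi.smul_apply, smul_eq_mul]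
  ring

theorem convex_Psi : ConvexOn ℝ Set.univ Psi := by
  refine ⟨convex_univ, fun a _ c _ s t hs ht _ => ?_⟩
  rw [smul_eq_mul, smul_eq_mul]
  unfold Psi
  rw [Finset.mul_sum, Finset.mul_sum, ← Finset.sum_add_distrib]
  refine Finset.sum_le_sum fun θ _ => ?_
  refine max_le ?_ ?_
  · rw [lin_comb]
    have h1 : |s * lin θ a + t * lin θ c| ≤ s * |lin θ a| + t * |lin θ c| := by
      refine (abs_add_le _ _).trans ?_
      rw [abs_mul, abs_mul, abs_of_nonneg hs, abs_of_nonneg ht]
    have h2 := mul_le_mul_of_nonneg_left (le_max_left (1 / 60 * |lin θ a|)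
      (1 / 1440 * ∑ p : I × I, |dif θ a p|)) hs
    have h3 := mul_le_mul_of_nonneg_left (le_max_left (1 / 60 * |lin θ c|)
      (1 / 1440 * ∑ p : I × I, |dif θ c p|)) ht
    linarith
  · have h1 : ∑ p : I × I, |dif θ (s • a + t • c) p| ≤
        s * ∑ p : I × I, |dif θ a p| + t * ∑ p : I × I, |dif θ c p| := by
      rw [Finset.mul_sum, Finset.mul_sum, ← Finset.sum_add_distrib]
      refine Finset.sum_le_sum fun p _ => ?_
      rw [dif_comb]
      refine (abs_add_le _ _).trans ?_
      rw [abs_mul, abs_mul, abs_of_nonneg hs, abs_of_nonneg ht]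
    have h2 := mul_le_mul_of_nonneg_left (le_max_right (1 / 60 * |lin θ a|)
      (1 / 1440 * ∑ p : I × I, |dif θ a p|)) hs
    have h3 := mul_le_mul_of_nonneg_left (le_max_right (1 / 60 * |lin θ c|)
      (1 / 1440 * ∑ p : I × I, |dif θ c p|)) ht
    linarith

theorem lin_vec (θ x : J) (o : Option I) :
    lin θ (fun k => (vec x o k : ℝ)) = (ssum (vec (mulJ θ x) o) : ℝ) := by
  unfold lin ssum
  push_cast
  refine Finset.sum_congr rfl fun k _ => ?_
  rw [vec_mulJ]
  push_cast
  ring

theorem dif_vec (θ x : J) (o : Option I) (p : I × I) :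
    dif θ (fun k => (vec x o k : ℝ)) p =
      ((vec (mulJ θ x) o p.1 - vec (mulJ θ x) o p.2 : ℤ) : ℝ) := by
  unfold dif
  rw [vec_mulJ, vec_mulJ]
  push_cast
  ring

theorem dif_vec_sum (θ x : J) (o : Option I) :
    ∑ p : I × I, |dif θ (fun k => (vec x o k : ℝ)) p| = (dsum (vec (mulJ θ x) o) : ℝ) := by
  unfold dsum
  push_cast
  rw [Fintype.sum_prod_type]
  refine Finset.sum_congr rfl fun k _ => Finset.sum_congr rfl fun l _ => ?_
  rw [dif_vec]
  push_cast
  rfl

theorem Psi_vec (x : J) : Psi (fun k => (vec x none k : ℝ)) = 1 := by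
  unfold Psi
  have h1 : ∀ θ : J, max (1 / 60 * |lin θ (fun k => (vec x none k : ℝ))|)
      (1 / 1440 * ∑ p : I × I, |dif θ (fun k => (vec x none k : ℝ)) p|) =
      (1 / 1440) * ((max (24 * |ssum (vec (mulJ θ x) none)|) (dsum (vec (mulJ θ x) none)) : ℤ)
        : ℝ) := by
    intro θ
    rw [lin_vec, dif_vec_sum]
    push_cast
    rw [mul_max_of_nonneg _ _ (by norm_num)]
    congr 1
    ring
  rw [Finset.sum_congr rfl fun θ _ => h1 θ, ← Finset.mul_sum]
  have h2 : ∑ θ : J, ((max (24 * |ssum (vec (mulJ θ x) none)|)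
      (dsum (vec (mulJ θ x) none)) : ℤ) : ℝ) =
      ∑ z : J, ((max (24 * |ssum (vec z none)|) (dsum (vec z none)) : ℤ) : ℝ) := by
    rw [← Equiv.sum_comp (mulE x)]
    refine Finset.sum_congr rfl fun z _ => ?_
    have h3 : mulJ (mulE x z) x = z := by
      show mulJ (mulJ x z) x = z
      funext k
      unfold mulJ
      cases x k <;> cases z k <;> rfl
    rw [h3]
  rw [h2, ← Int.cast_sum, F2]
  norm_num

theorem Psi_smul (c : ℝ) (a : I → ℝ) : Psi (c • a) = |c| * Psi a := by
  have h0 : c • a = c • a + (0 : ℝ) • a := by rw [zero_smul, add_zero]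
  unfold Psi
  rw [Finset.mul_sum]
  refine Finset.sum_congr rfl fun θ _ => ?_
  rw [mul_max_of_nonneg _ _ (abs_nonneg c), h0, lin_comb]
  congr 1
  · rw [zero_mul, add_zero, abs_mul]; ring
  · rw [Finset.sum_congr rfl fun p _ => by rw [dif_comb, zero_mul, add_zero, abs_mul],
      ← Finset.mul_sum]
    ring

theorem Psi_le_one (a : I → ℝ) (ha : ∀ k, |a k| ≤ 1) : Psi a ≤ 1 := by
  have h1 : a ∈ convexHull ℝ (Set.pi Set.univ fun _ : I => ({-1, 1} : Set ℝ)) := by
    rw [convexHull_pi, Set.mem_univ_pi]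
    intro k
    rw [convexHull_pair, segment_eq_Icc (by norm_num)]
    exact abs_le.1 (ha k)
  obtain ⟨y, hy, hle⟩ := convex_Psi.exists_ge_of_mem_convexHull (Set.subset_univ _) h1
  refine hle.trans ?_
  have h2 : y = fun k => (vec (fun k => decide (y k = 1)) none k : ℝ) := by
    funext k
    rw [Set.mem_univ_pi] at hy
    have hv : vec (fun k => decide (y k = 1)) none k = if y k = 1 then 1 else -1 := by
      unfold vec sg
      simp
    rw [hv]
    rcases hy k with h | h
    · rw [h]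
      norm_num
    · rw [Set.mem_singleton_iff] at h
      rw [h]
      norm_num
  rw [h2, Psi_vec]

theorem Psi_le (a : I → ℝ) (r : ℝ) (hr : 0 ≤ r) (ha : ∀ k, |a k| ≤ r) : Psi a ≤ r := by
  rcases hr.eq_or_lt with h | h
  · have h1 : a = (0 : ℝ) • (0 : I → ℝ) := by
      funext k
      have := ha k
      rw [← h] at this
      rw [zero_smul]
      exact abs_nonpos_iff.1 this
    rw [h1, Psi_smul, abs_zero, zero_mul]
    exact hr
  · have h1 : a = r • (r⁻¹ • a) := by rw [smul_smul, mul_inv_cancel₀ h.ne', one_smul]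
    rw [h1, Psi_smul, abs_of_pos h]
    have h2 : Psi (r⁻¹ • a) ≤ 1 := by
      refine Psi_le_one _ fun k => ?_
      rw [Pi.smul_apply, smul_eq_mul, abs_mul, abs_of_pos (inv_pos.2 h), inv_mul_le_iff₀ h,
        mul_one]
      exact ha k
    calc r * Psi (r⁻¹ • a) ≤ r * 1 := mul_le_mul_of_nonneg_left h2 hr
      _ = r := mul_one r

section form

variable {B : Type} [NormedAddCommGroup B] [NormedSpace ℝ B]

/-- coordinates -/
def av (es : StrongDual ℝ B) (x : XX B) : I → ℝ := fun k => es (x k)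

/-- the extremal form -/
noncomputable def G0 (es : StrongDual ℝ B) (x : XX B) (y : YY B) : ℝ :=
  ∑ θ : J, (1 / 60 * (lin θ (av es x) * es (y θ).snd) +
    1 / 1440 * ∑ p : I × I, dif θ (av es x) p * es ((y θ).fst p))

theorem G0_bound (es : StrongDual ℝ B) (hes : ‖es‖ ≤ 1) (x : XX B) (y : YY B) :
    |G0 es x y| ≤ ‖x‖ * ‖y‖ := by
  have hes' : ∀ g : B, |es g| ≤ ‖g‖ := fun g => by
    have := es.le_of_opNorm_le hes g
    rwa [one_mul, Real.norm_eq_abs] at this
  have h1 : |G0 es x y| ≤ Psi (av es x) * ‖y‖ := by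
    unfold G0 Psi
    rw [Finset.sum_mul]
    refine (Finset.abs_sum_le_sum_abs _ _).trans (Finset.sum_le_sum fun θ _ => ?_)
    set L : ℝ := 1 / 60 * |lin θ (av es x)| with hL
    set D : ℝ := 1 / 1440 * ∑ p : I × I, |dif θ (av es x) p| with hD
    have hn : ‖(y θ).fst‖ + ‖(y θ).snd‖ ≤ ‖y‖ := by
      rw [← prod_norm_eq_of_L1]
      exact norm_le_pi_norm y θ
    have e1 : |1 / 60 * (lin θ (av es x) * es (y θ).snd)| ≤ L * ‖(y θ).snd‖ := by
      rw [abs_mul, abs_mul, abs_of_pos (by norm_num : (0 : ℝ) < 1 / 60), ← mul_assoc]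
      exact mul_le_mul_of_nonneg_left (hes' _) (by positivity)
    have e2 : |1 / 1440 * ∑ p : I × I, dif θ (av es x) p * es ((y θ).fst p)| ≤
        D * ‖(y θ).fst‖ := by
      rw [abs_mul, abs_of_pos (by norm_num : (0 : ℝ) < 1 / 1440), hD, mul_assoc,
        Finset.sum_mul]
      refine mul_le_mul_of_nonneg_left ?_ (by norm_num)
      refine (Finset.abs_sum_le_sum_abs _ _).trans (Finset.sum_le_sum fun p _ => ?_)
      rw [abs_mul]
      exact mul_le_mul_of_nonneg_left ((hes' _).trans (norm_le_pi_norm _ p)) (abs_nonneg _)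
    refine (abs_add_le _ _).trans ((add_le_add e1 e2).trans ?_)
    have e3 : L * ‖(y θ).snd‖ ≤ max L D * ‖(y θ).snd‖ :=
      mul_le_mul_of_nonneg_right (le_max_left _ _) (norm_nonneg _)
    have e4 : D * ‖(y θ).fst‖ ≤ max L D * ‖(y θ).fst‖ :=
      mul_le_mul_of_nonneg_right (le_max_right _ _) (norm_nonneg _)
    have e5 : max L D * (‖(y θ).fst‖ + ‖(y θ).snd‖) ≤ max L D * ‖y‖ :=
      mul_le_mul_of_nonneg_left hn (le_max_of_le_left (by positivity))
    linarith
  refine h1.trans (mul_le_mul_of_nonneg_right ?_ (norm_nonneg _))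
  exact Psi_le _ _ (norm_nonneg _) fun k => (hes' _).trans (norm_le_pi_norm x k)

theorem G0_tight (es : StrongDual ℝ B) (e : B) (hese : es e = 1) (x : J) (o : Option I) :
    G0 es (xel e x o) (yel e x o) = 1 := by
  have hav : av es (xel e x o) = fun k => (vec x o k : ℝ) := by
    funext k
    unfold av xel
    rw [map_smul, hese, smul_eq_mul, mul_one]
  unfold G0
  have h1 : ∀ θ : J, (1 / 60 * (lin θ (av es (xel e x o)) * es (yel e x o θ).snd) +
      1 / 1440 * ∑ p : I × I, dif θ (av es (xel e x o)) p * es ((yel e x o θ).fst p)) =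
      1 / 1440 * ((if ssum (vec (mulJ θ x) o) = 0 then dsum (vec (mulJ θ x) o) else
        24 * |ssum (vec (mulJ θ x) o)| : ℤ) : ℝ) := by
    intro θ
    rw [hav, lin_vec]
    unfold yel
    by_cases hs : ssum (vec (mulJ θ x) o) = 0
    · rw [if_pos hs, if_pos hs]
      simp only [toLp_snd, toLp_fst, map_zero, mul_zero, zero_add]
      congr 1
      unfold dsum
      push_cast
      rw [Fintype.sum_prod_type]
      refine Finset.sum_congr rfl fun k _ => Finset.sum_congr rfl fun l _ => ?_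
      rw [dif_vec]
      unfold patt
      rw [map_smul, hese, smul_eq_mul, mul_one]
      rw [← Int.cast_mul, mul_comm, Int.sign_mul_self_eq_abs]
      push_cast
      rfl
    · rw [if_neg hs, if_neg hs]
      simp only [toLp_snd, toLp_fst, Pi.zero_apply, map_zero, mul_zero,
        Finset.sum_const_zero, add_zero]
      rw [map_smul, hese, smul_eq_mul, mul_one, ← Int.cast_mul, mul_comm (ssum _),
        Int.sign_mul_self_eq_abs]
      push_cast
      ring
  rw [Finset.sum_congr rfl fun θ _ => h1 θ, ← Finset.mul_sum]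
  have h2 : ∑ θ : J, ((if ssum (vec (mulJ θ x) o) = 0 then dsum (vec (mulJ θ x) o) else
        24 * |ssum (vec (mulJ θ x) o)| : ℤ) : ℝ) =
      ∑ z : J, ((if ssum (vec z o) = 0 then dsum (vec z o) else
        24 * |ssum (vec z o)| : ℤ) : ℝ) := by
    rw [← Equiv.sum_comp (mulE x)]
    refine Finset.sum_congr rfl fun z _ => ?_
    have h3 : mulJ (mulE x z) x = z := by
      show mulJ (mulJ x z) x = z
      funext k
      unfold mulJ
      cases x k <;> cases z k <;> rfl
    rw [h3]
  rw [h2, ← Int.cast_sum, F1]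
  norm_num

end form

end Pool.Agent.W700.Dau
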