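import Mathlib
import Pool.Agent.W700.Dau.Form

/-!
# Near-maximal bilinear forms are small on the first parts
-/

set_option autoImplicit false

open WithLp

namespace Pool.Agent.W700.Dau

/-- the pairs with exactly one coordinate equal to `i` -/
def AAset (i : I) : Finset (I × I) :=
  Finset.univ.filter fun p => (p.1 = i ∧ p.2 ≠ i) ∨ (p.1 ≠ i ∧ p.2 = i)

theorem sum_AAset (i : I) (g : I × I → ℝ) :
    ∑ p ∈ AAset i, g p = ∑ k ∈ Finset.univ.erase i, (g (k, i) + g (i, k)) := by
  have h : AAset i = ((Finset.univ.erase i).image fun k => (k, i)) ∪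
      ((Finset.univ.erase i).image fun k => (i, k)) := by
    revert i; decide
  have hd : Disjoint ((Finset.univ.erase i).image fun k => (k, i))
      ((Finset.univ.erase i).image fun k => (i, k)) := by
    revert i; decide
  rw [h, Finset.sum_union hd, Finset.sum_image, Finset.sum_image, Finset.sum_add_distrib]
  · intro a _ b _ hab
    exact (Prod.ext_iff.1 hab).2
  · intro a _ b _ hab
    exact (Prod.ext_iff.1 hab).1

theorem vec_some_same (z : J) (i : I) : vec z (some i) i = 0 := by
  unfold vec
  rw [if_pos rfl]

theorem vec_some_ne (z : J) {i k : I} (h : k ≠ i) : vec z (some i) k = sg (z k) := by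
  unfold vec
  rw [if_neg (fun hc => h (Option.some.inj hc).symm)]

theorem sign_sg (c : Bool) : (sg c).sign = sg c := by cases c <;> simp [sg]

theorem abs_vec_le (z : J) (o : Option I) (k : I) : |(vec z o k : ℝ)| ≤ 1 := by
  unfold vec
  split_ifs
  · norm_num
  · cases z k <;> simp [sg]

section near

variable {B : Type} [NormedAddCommGroup B] [NormedSpace ℝ B]
variable {b : XX B →L[ℝ] StrongDual ℝ (YY B)} {e : B} {η : ℝ}

variable (b) in
/-- the skew coefficients -/
noncomputable def cA (e : B) (θ : J) (k i : I) : ℝ := ca b e θ k (k, i) - ca b e θ k (i, k)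

theorem sum_coef (hb : ∀ x, ‖b x‖ ≤ ‖x‖) (he : ‖e‖ = 1) (hη : 0 ≤ η)
    (H : ∀ (x : J) (o : Option I), 1 - η ≤ b (xel e x o) (yel e x o))
    (θ : J) (i k : I) (hk : k ≠ i) (z : J) (q : I × I) (hq : q = (k, i) ∨ q = (i, k)) :
    |∑ m, (vec z (some i) k : ℝ) * (vec z (some i) m : ℝ) * ca b e θ m q - ca b e θ k q| ≤
      4 * η := by
  rw [← Finset.add_sum_erase _ _ (Finset.mem_univ k)]
  have h1 : (vec z (some i) k : ℝ) * (vec z (some i) k : ℝ) = 1 := by
    rw [vec_some_ne z hk]
    have := sg_sq (z k)
    exact_mod_cast this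
  rw [h1, one_mul, add_sub_cancel_left]
  refine (Finset.abs_sum_le_sum_abs _ _).trans ?_
  have h2 : ∀ m ∈ Finset.univ.erase k, |(vec z (some i) k : ℝ) * (vec z (some i) m : ℝ) *
      ca b e θ m q| ≤ η := by
    intro m hm
    have hmk : m ≠ k := (Finset.mem_erase.1 hm).1
    by_cases hmi : m = i
    · subst hmi
      rw [vec_some_same]
      simpa using hη
    · rw [abs_mul, abs_mul]
      have h3 := ca_small hb he H θ m q
        (by rcases hq with rfl | rfl <;> first | exact hmk.symm | exact Ne.symm hmi)
        (by rcases hq with rfl | rfl <;> first | exact hmk.symm | exact Ne.symm hmi)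
      calc |(vec z (some i) k : ℝ)| * |(vec z (some i) m : ℝ)| * |ca b e θ m q|
          ≤ 1 * 1 * η := by
            refine mul_le_mul (mul_le_mul (abs_vec_le _ _ _) (abs_vec_le _ _ _)
              (abs_nonneg _) zero_le_one) h3 (abs_nonneg _) (by norm_num)
        _ = η := by ring
  refine (Finset.sum_le_sum h2).trans ?_
  rw [Finset.sum_const, Finset.card_erase_of_mem (Finset.mem_univ k), Finset.card_univ,
    Fintype.card_fin]
  simp

theorem stepC (hb : ∀ x, ‖b x‖ ≤ ‖x‖) (he : ‖e‖ = 1) (hη : 0 ≤ η)
    (H : ∀ (x : J) (o : Option I), 1 - η ≤ b (xel e x o) (yel e x o))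
    (θ : J) (i : I) (h : B) (hh : ‖h‖ ≤ 1) (f : I × I → B) (hf : ‖f‖ ≤ 1) :
    |b (Pi.single i h) (cY θ f)| ≤ 58 * η + ∑ k, cA b e θ k i := by
  have hfp : ∀ p, ‖f p‖ ≤ 1 := fun p => (norm_le_pi_norm f p).trans hf
  have hne : ∀ i : I, i + 1 ≠ i := by decide
  obtain ⟨z, hz, -⟩ := F3 i (i + 1) (i + 1) (hne i) (hne i)
  set v : I → ℤ := vec z (some i) with hv
  -- split `f`
  set fA : I × I → B := fun p => if p ∈ AAset i then f p else 0 with hfA
  set fB : I × I → B := fun p => if p ∈ AAset i then 0 else f p with hfB
  have hsplit : f = fA + fB := by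
    funext p
    simp only [hfA, hfB, Pi.add_apply]
    split_ifs <;> simp
  -- the easy part
  have hB : |b (Pi.single i h) (cY θ fB)| ≤ 25 * η := by
    rw [b_cY]
    refine (Finset.abs_sum_le_sum_abs _ _).trans ?_
    have h1 : ∀ p ∈ (Finset.univ : Finset (I × I)),
        |b (Pi.single i h) (cY θ (Pi.single p (fB p)))| ≤ η := by
      intro p _
      by_cases hp : p ∈ AAset i
      · have h2 : fB p = 0 := by simp only [hfB]; rw [if_pos hp]
        rw [h2, Pi.single_zero, map_zero, map_zero, abs_zero]
        exact hη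
      · have h2 : fB p = f p := by simp only [hfB]; rw [if_neg hp]
        rw [h2]
        refine kill' hb he H θ i p ?_ h hh (f p) (hfp p)
        unfold AAset at hp
        rw [Finset.mem_filter] at hp
        by_cases h3 : p.1 = i <;> by_cases h4 : p.2 = i <;> simp [h3, h4] at hp ⊢
    refine (Finset.sum_le_sum h1).trans ?_
    rw [Finset.sum_const, Finset.card_univ, Fintype.card_prod, Fintype.card_fin]
    simp
  -- the main part
  set c : I × I → ℝ := fun p => if p ∈ AAset i then (((v p.1 - v p.2).sign : ℤ) : ℝ) else 0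
    with hc
  have hA : |b (Pi.single i h) (cY θ fA)| ≤ η + b (xel e (mulJ θ z) (some i))
      (cY θ (fun p => c p • e)) := by
    have key : ∀ g : I × I → B, ‖g‖ ≤ 1 → ‖(yel e (mulJ θ z) (some i) -
        cY θ (fun p => c p • e)) + cY θ (fun p => if p ∈ AAset i then g p else 0)‖ ≤ 1 := by
      intro g hg
      have h1 : (yel e (mulJ θ z) (some i) - cY θ (fun p => c p • e)) +
          cY θ (fun p => if p ∈ AAset i then g p else 0) =
          yel e (mulJ θ z) (some i) + cY θ (-(fun p => c p • e) +
          fun p => if p ∈ AAset i then g p else 0) := by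
        rw [map_add, map_neg]; abel
      rw [h1]
      refine norm_modify he θ z (some i) hz _ fun p => ?_
      by_cases hp : p ∈ AAset i
      · have h2 : patt e (vec z (some i)) p + (-(fun p => c p • e) +
            fun p => if p ∈ AAset i then g p else 0 : I × I → B) p = g p := by
          rw [Pi.add_apply, Pi.neg_apply]
          simp only [hc, if_pos hp, patt, hv]
          abel
        rw [h2]
        exact (norm_le_pi_norm g p).trans hg
      · have h2 : patt e (vec z (some i)) p + (-(fun p => c p • e) +
            fun p => if p ∈ AAset i then g p else 0 : I × I → B) p =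
            patt e (vec z (some i)) p := by
          rw [Pi.add_apply, Pi.neg_apply]
          simp only [hc, if_neg hp]
          simp
        rw [h2]
        exact norm_patt he _ _
    have h3 := avg hb (norm_xel_add he (mulJ θ z) i h hh) (norm_xel_sub he (mulJ θ z) i h hh)
      (key f hf) (f := cY θ fA) (by
        have h4 := key (-f) (by rwa [norm_neg])
        have h5 : (fun p => if p ∈ AAset i then (-f) p else 0) = -fA := by
          funext p
          simp only [hfA, Pi.neg_apply]
          split_ifs <;> simp
        rwa [h5, map_neg, ← sub_eq_add_neg] at h4)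
    have h6 := H (mulJ θ z) (some i)
    rw [map_sub] at h3
    linarith
  have hM : b (xel e (mulJ θ z) (some i)) (cY θ (fun p => c p • e)) ≤
      32 * η + ∑ k, cA b e θ k i := by
    rw [b_xc]
    have h1 : ∑ p, ∑ m, c p * (vec z (some i) m : ℝ) * ca b e θ m p =
        ∑ p ∈ AAset i, (((v p.1 - v p.2).sign : ℤ) : ℝ) *
          ∑ m, (vec z (some i) m : ℝ) * ca b e θ m p := by
      rw [← Finset.sum_filter_add_sum_filter_not Finset.univ (fun p => p ∈ AAset i)]
      have h2 : ∑ p ∈ Finset.univ.filter (fun p => ¬ p ∈ AAset i),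
          ∑ m, c p * (vec z (some i) m : ℝ) * ca b e θ m p = 0 := by
        refine Finset.sum_eq_zero fun p hp => ?_
        have hp' := (Finset.mem_filter.1 hp).2
        refine Finset.sum_eq_zero fun m _ => ?_
        simp only [hc]
        rw [if_neg hp', zero_mul, zero_mul]
      rw [h2, add_zero]
      have h3 : Finset.univ.filter (fun p => p ∈ AAset i) = AAset i := by
        ext p; simp
      rw [h3]
      refine Finset.sum_congr rfl fun p hp => ?_
      rw [Finset.mul_sum]
      refine Finset.sum_congr rfl fun m _ => ?_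
      simp only [hc]
      rw [if_pos hp, mul_assoc]
    rw [h1, sum_AAset]
    have h4 : ∀ k ∈ Finset.univ.erase i,
        (((v (k, i).1 - v (k, i).2).sign : ℤ) : ℝ) *
          ∑ m, (vec z (some i) m : ℝ) * ca b e θ m (k, i) +
        (((v (i, k).1 - v (i, k).2).sign : ℤ) : ℝ) *
          ∑ m, (vec z (some i) m : ℝ) * ca b e θ m (i, k) ≤ cA b e θ k i + 8 * η := by
      intro k hk
      have hki : k ≠ i := (Finset.mem_erase.1 hk).1
      have e1 : (v (k, i).1 - v (k, i).2).sign = vec z (some i) k := by
        show (vec z (some i) k - vec z (some i) i).sign = vec z (some i) k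
        rw [vec_some_same, sub_zero, vec_some_ne z hki, sign_sg]
      have e2 : (v (i, k).1 - v (i, k).2).sign = -vec z (some i) k := by
        show (vec z (some i) i - vec z (some i) k).sign = -vec z (some i) k
        rw [vec_some_same, zero_sub, vec_some_ne z hki, Int.sign_neg, sign_sg]
      rw [e1, e2, Finset.mul_sum, Finset.mul_sum]
      have s1 := (abs_le.1 (sum_coef hb he hη H θ i k hki z (k, i) (Or.inl rfl))).2
      have s2 := (abs_le.1 (sum_coef hb he hη H θ i k hki z (i, k) (Or.inr rfl))).1
      have t1 : ∑ m, (vec z (some i) k : ℝ) * ((vec z (some i) m : ℝ) * ca b e θ m (k, i)) =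
          ∑ m, (vec z (some i) k : ℝ) * (vec z (some i) m : ℝ) * ca b e θ m (k, i) :=
        Finset.sum_congr rfl fun m _ => by ring
      have t2 : ∑ m, ((-vec z (some i) k : ℤ) : ℝ) *
          ((vec z (some i) m : ℝ) * ca b e θ m (i, k)) =
          -∑ m, (vec z (some i) k : ℝ) * (vec z (some i) m : ℝ) * ca b e θ m (i, k) := by
        rw [← Finset.sum_neg_distrib]
        exact Finset.sum_congr rfl fun m _ => by push_cast; ring
      rw [t1, t2]
      unfold cA
      linarith
    refine (Finset.sum_le_sum h4).trans ?_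
    rw [Finset.sum_add_distrib, Finset.sum_const,
      Finset.card_erase_of_mem (Finset.mem_univ i), Finset.card_univ, Fintype.card_fin]
    have h5 : ∑ k ∈ Finset.univ.erase i, cA b e θ k i = ∑ k, cA b e θ k i := by
      rw [← Finset.add_sum_erase _ _ (Finset.mem_univ i)]
      have : cA b e θ i i = 0 := by unfold cA; ring
      rw [this, zero_add]
    rw [h5]
    simp only [nsmul_eq_mul]
    push_cast
    linarith
  rw [hsplit, map_add, map_add]
  refine (abs_add_le _ _).trans ?_
  linarith

end near

end Pool.Agent.W700.Dau
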