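import Mathlib
import Pool.Agent.W700.Dau.Form2

/-!
# Near-maximal bilinear forms are small on the first parts: conclusion
-/

set_option autoImplicit false

open WithLp

namespace Pool.Agent.W700.Dau

section near

variable {B : Type} [NormedAddCommGroup B] [NormedSpace ℝ B]
variable {b : XX B →L[ℝ] StrongDual ℝ (YY B)} {e : B} {η : ℝ}

/-- Step D for one sign vector -/
theorem stepD0 (hb : ∀ x, ‖b x‖ ≤ ‖x‖) (he : ‖e‖ = 1)
    (H : ∀ (x : J) (o : Option I), 1 - η ≤ b (xel e x o) (yel e x o)) (θ z : J) :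
    ∑ p : I × I, ∑ m, (((vec z none p.1 - vec z none p.2).sign : ℤ) : ℝ) *
      (vec z none m : ℝ) * ca b e θ m p ≤
    η + ∑ m, (((ssum (vec z none)).sign : ℤ) : ℝ) * (vec z none m : ℝ) * cw b e θ m := by
  set s : ℝ := (((ssum (vec z none)).sign : ℤ) : ℝ) with hs
  have hn : ‖yel e (mulJ θ z) none - lY θ (s • e) + cY θ (patt e (vec z none))‖ ≤ 1 := by
    refine norm_YY_le fun θ' => ?_
    rw [Pi.add_apply, Pi.sub_apply]
    by_cases h : θ' = θ
    · subst h
      rw [cY_same, lY_same, yel_same_ne e _ z none (F7 z), sub_self, zero_add, norm_AA,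
        norm_zero, add_zero]
      exact norm_patt' he _
    · rw [cY_ne h, lY_ne h, add_zero, sub_zero]
      exact norm_yel_apply he _ _ _
  have h1 := (abs_le.1 (bd1 hb (norm_xel he (mulJ θ z) none) hn)).2
  rw [map_add, map_sub] at h1
  have h2 := H (mulJ θ z) none
  have h3 : b (xel e (mulJ θ z) none) (cY θ (patt e (vec z none))) =
      ∑ p : I × I, ∑ m, (((vec z none p.1 - vec z none p.2).sign : ℤ) : ℝ) *
      (vec z none m : ℝ) * ca b e θ m p :=
    b_xc e θ z none (fun p => (((vec z none p.1 - vec z none p.2).sign : ℤ) : ℝ))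
  rw [← h3, ← b_xl]
  linarith

theorem F4r (k l m : I) : ∑ z : J, (if |ssum (vec z none)| = 1 then
    (((vec z none k - vec z none l).sign : ℤ) : ℝ) * (vec z none m : ℝ) else 0) =
    12 * ((if m = k then 1 else 0) - (if m = l then 1 else 0)) := by
  have h := F4 k l m
  have h2 := congrArg (fun t : ℤ => (t : ℝ)) h
  push_cast at h2
  exact h2

theorem F5r (m : I) : ∑ z : J, (if |ssum (vec z none)| = 1 then
    (((ssum (vec z none)).sign : ℤ) : ℝ) * (vec z none m : ℝ) else 0) = 4 := by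
  have h := F5 m
  have h2 := congrArg (fun t : ℤ => (t : ℝ)) h
  push_cast at h2
  exact h2

theorem F5r' (η : ℝ) : ∑ z : J, (if |ssum (vec z none)| = 1 then η else 0) = 20 * η := by
  have h2 := congrArg (fun t : ℤ => (t : ℝ) * η) F5'
  push_cast at h2
  rw [← h2, Finset.sum_mul]
  refine Finset.sum_congr rfl fun z _ => ?_
  split_ifs <;> simp

theorem stepD (hb : ∀ x, ‖b x‖ ≤ ‖x‖) (he : ‖e‖ = 1)
    (H : ∀ (x : J) (o : Option I), 1 - η ≤ b (xel e x o) (yel e x o)) (θ : J) :
    12 * ∑ i, ∑ k, cA b e θ k i ≤ 20 * η + 4 * ∑ m, cw b e θ m := by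
  have h1 : ∑ z : J, (if |ssum (vec z none)| = 1 then
      ∑ p : I × I, ∑ m, (((vec z none p.1 - vec z none p.2).sign : ℤ) : ℝ) *
        (vec z none m : ℝ) * ca b e θ m p else 0) ≤
      ∑ z : J, (if |ssum (vec z none)| = 1 then
        η + ∑ m, (((ssum (vec z none)).sign : ℤ) : ℝ) * (vec z none m : ℝ) * cw b e θ m
        else 0) := by
    refine Finset.sum_le_sum fun z _ => ?_
    split_ifs
    · exact stepD0 hb he H θ z
    · exact le_rfl
  have h2 : ∑ z : J, (if |ssum (vec z none)| = 1 then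
      ∑ p : I × I, ∑ m, (((vec z none p.1 - vec z none p.2).sign : ℤ) : ℝ) *
        (vec z none m : ℝ) * ca b e θ m p else 0) =
      ∑ p : I × I, ∑ m, ca b e θ m p *
        (12 * ((if m = p.1 then 1 else 0) - (if m = p.2 then 1 else 0))) := by
    have e1 : ∀ z : J, (if |ssum (vec z none)| = 1 then
        ∑ p : I × I, ∑ m, (((vec z none p.1 - vec z none p.2).sign : ℤ) : ℝ) *
        (vec z none m : ℝ) * ca b e θ m p else 0) =
        ∑ p : I × I, ∑ m, ca b e θ m p * (if |ssum (vec z none)| = 1 then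
          (((vec z none p.1 - vec z none p.2).sign : ℤ) : ℝ) * (vec z none m : ℝ) else 0) := by
      intro z
      split_ifs
      · exact Finset.sum_congr rfl fun p _ => Finset.sum_congr rfl fun m _ => by ring
      · simp
    rw [Finset.sum_congr rfl fun z _ => e1 z, Finset.sum_comm]
    refine Finset.sum_congr rfl fun p _ => ?_
    rw [Finset.sum_comm]
    refine Finset.sum_congr rfl fun m _ => ?_
    rw [← Finset.mul_sum, F4r]
  have h3 : ∑ p : I × I, ∑ m, ca b e θ m p *
        (12 * ((if m = p.1 then 1 else 0) - (if m = p.2 then 1 else 0))) =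
      12 * ∑ i, ∑ k, cA b e θ k i := by
    have e1 : ∀ p : I × I, ∑ m, ca b e θ m p *
        (12 * ((if m = p.1 then 1 else 0) - (if m = p.2 then 1 else 0))) =
        12 * (ca b e θ p.1 p - ca b e θ p.2 p) := by
      intro p
      have e2 : ∀ m, ca b e θ m p *
          (12 * ((if m = p.1 then 1 else 0) - (if m = p.2 then 1 else 0))) =
          12 * ((if m = p.1 then ca b e θ m p else 0) -
            (if m = p.2 then ca b e θ m p else 0)) := by
        intro m
        split_ifs <;> ring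
      rw [Finset.sum_congr rfl fun m _ => e2 m, ← Finset.mul_sum, Finset.sum_sub_distrib,
        Finset.sum_ite_eq' , Finset.sum_ite_eq', if_pos (Finset.mem_univ _),
        if_pos (Finset.mem_univ _)]
    rw [Finset.sum_congr rfl fun p _ => e1 p, ← Finset.mul_sum, Finset.sum_sub_distrib]
    congr 1
    unfold cA
    have e3 : ∑ p : I × I, ca b e θ p.1 p = ∑ i, ∑ k, ca b e θ k (k, i) := by
      rw [Fintype.sum_prod_type, Finset.sum_comm]
    have e4 : ∑ p : I × I, ca b e θ p.2 p = ∑ i, ∑ k, ca b e θ k (i, k) := by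
      rw [Fintype.sum_prod_type]
    rw [e3, e4, ← Finset.sum_sub_distrib]
    exact Finset.sum_congr rfl fun i _ => by rw [← Finset.sum_sub_distrib]
  have h4 : ∑ z : J, (if |ssum (vec z none)| = 1 then
        η + ∑ m, (((ssum (vec z none)).sign : ℤ) : ℝ) * (vec z none m : ℝ) * cw b e θ m
        else 0) = 20 * η + 4 * ∑ m, cw b e θ m := by
    have e1 : ∀ z : J, (if |ssum (vec z none)| = 1 then
        η + ∑ m, (((ssum (vec z none)).sign : ℤ) : ℝ) * (vec z none m : ℝ) * cw b e θ m
        else 0) = (if |ssum (vec z none)| = 1 then η else 0) +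
        ∑ m, cw b e θ m * (if |ssum (vec z none)| = 1 then
          (((ssum (vec z none)).sign : ℤ) : ℝ) * (vec z none m : ℝ) else 0) := by
      intro z
      split_ifs
      · congr 1
        exact Finset.sum_congr rfl fun m _ => by ring
      · simp
    rw [Finset.sum_congr rfl fun z _ => e1 z, Finset.sum_add_distrib, F5r', Finset.sum_comm]
    congr 1
    rw [Finset.mul_sum]
    refine Finset.sum_congr rfl fun m _ => ?_
    rw [← Finset.mul_sum, F5r]
    ring
  rw [h2, h3, h4] at h1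
  exact h1

theorem yel_none (e : B) (x : J) : yel e x none =
    ∑ θ : J, lY θ ((((ssum (vec (mulJ θ x) none)).sign : ℤ) : ℝ) • e) := by
  have h : ∀ θ : J, lY θ ((((ssum (vec (mulJ θ x) none)).sign : ℤ) : ℝ) • e) =
      (Pi.single θ (yel e x none θ) : YY B) := by
    intro θ
    unfold yel
    rw [if_neg (F7 _)]
    rfl
  rw [Finset.sum_congr rfl fun θ _ => h θ]
  exact (Finset.univ_sum_single _).symm

theorem F6r (m : I) : ∑ z : J, (((ssum (vec z none)).sign : ℤ) : ℝ) * (vec z none m : ℝ) =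
    12 := by
  have h := F6 m
  have h2 := congrArg (fun t : ℤ => (t : ℝ)) h
  push_cast at h2
  exact h2

theorem stepE (hb : ∀ x, ‖b x‖ ≤ ‖x‖) (he : ‖e‖ = 1) :
    12 * ∑ θ, ∑ m, cw b e θ m ≤ 32 := by
  have h1 : ∑ x : J, b (xel e x none) (yel e x none) ≤ ∑ _x : J, (1 : ℝ) :=
    Finset.sum_le_sum fun x _ =>
      (abs_le.1 (bd1 hb (norm_xel he x none) (norm_yel he x none))).2
  have h2 : ∑ _x : J, (1 : ℝ) = 32 := by
    rw [Finset.sum_const, Finset.card_univ]
    norm_num [Fintype.card_fun]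
  rw [h2] at h1
  have h3 : ∑ x : J, b (xel e x none) (yel e x none) = 12 * ∑ θ, ∑ m, cw b e θ m := by
    have e1 : ∀ x : J, b (xel e x none) (yel e x none) = ∑ θ : J,
        b (xel e x none) (lY θ ((((ssum (vec (mulJ θ x) none)).sign : ℤ) : ℝ) • e)) := by
      intro x
      rw [yel_none, map_sum]
    rw [Finset.sum_congr rfl fun x _ => e1 x, Finset.sum_comm, Finset.mul_sum]
    refine Finset.sum_congr rfl fun θ _ => ?_
    rw [← Equiv.sum_comp (mulE θ)]
    have e2 : ∀ z : J, b (xel e (mulE θ z) none)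
        (lY θ ((((ssum (vec (mulJ θ (mulE θ z)) none)).sign : ℤ) : ℝ) • e)) =
        ∑ m, cw b e θ m *
          ((((ssum (vec z none)).sign : ℤ) : ℝ) * (vec z none m : ℝ)) := by
      intro z
      show b (xel e (mulJ θ z) none)
        (lY θ ((((ssum (vec (mulJ θ (mulJ θ z)) none)).sign : ℤ) : ℝ) • e)) = _
      rw [mulJ_mulJ, b_xl]
      exact Finset.sum_congr rfl fun m _ => by ring
    rw [Finset.sum_congr rfl fun z _ => e2 z, Finset.sum_comm, Finset.mul_sum]
    refine Finset.sum_congr rfl fun m _ => ?_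
    rw [← Finset.mul_sum, F6r]
    ring
  rw [← h3]
  exact h1

/-- A near-maximal bilinear form is small on the first parts. -/
theorem form_small (hb : ∀ x, ‖b x‖ ≤ ‖x‖) (he : ‖e‖ = 1) (hη : 0 ≤ η)
    (H : ∀ (x : J) (o : Option I), 1 - η ≤ b (xel e x o) (yel e x o))
    (x : XX B) (hx : ‖x‖ ≤ 1) (f : J → I × I → B) (hf : ∀ θ, ‖f θ‖ ≤ 1) :
    |b x (∑ θ, cY θ (f θ))| ≤ 8 / 9 + 10000 * η := by
  have h1 : b x (∑ θ, cY θ (f θ)) = ∑ θ, ∑ i, b (Pi.single i (x i)) (cY θ (f θ)) := by
    rw [map_sum]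
    refine Finset.sum_congr rfl fun θ _ => ?_
    have h2 := (Finset.univ_sum_single x).symm
    conv_lhs => rw [h2]
    rw [map_sum, _root_.sum_apply]
  rw [h1]
  have h3 : |∑ θ, ∑ i, b (Pi.single i (x i)) (cY θ (f θ))| ≤
      ∑ θ, ∑ i, (58 * η + ∑ k, cA b e θ k i) := by
    refine (Finset.abs_sum_le_sum_abs _ _).trans (Finset.sum_le_sum fun θ _ => ?_)
    refine (Finset.abs_sum_le_sum_abs _ _).trans (Finset.sum_le_sum fun i _ => ?_)
    exact stepC hb he hη H θ i (x i) ((norm_le_pi_norm x i).trans hx) (f θ) (hf θ)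
  refine h3.trans ?_
  have h4 : ∀ θ, ∑ i, (58 * η + ∑ k, cA b e θ k i) ≤
      290 * η + (20 * η + 4 * ∑ m, cw b e θ m) / 12 := by
    intro θ
    rw [Finset.sum_add_distrib, Finset.sum_const, Finset.card_univ, Fintype.card_fin]
    have h5 := stepD hb he H θ
    simp only [nsmul_eq_mul]
    push_cast
    linarith
  refine (Finset.sum_le_sum fun θ _ => h4 θ).trans ?_
  have h6 : ∑ θ : J, (290 * η + (20 * η + 4 * ∑ m, cw b e θ m) / 12) =
      32 * (290 * η + 20 * η / 12) + (1 / 3) * ∑ θ, ∑ m, cw b e θ m := by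
    have e1 : ∀ θ : J, (290 * η + (20 * η + 4 * ∑ m, cw b e θ m) / 12) =
        (290 * η + 20 * η / 12) + (1 / 3) * ∑ m, cw b e θ m := fun θ => by ring
    rw [Finset.sum_congr rfl fun θ _ => e1 θ, Finset.sum_add_distrib, ← Finset.mul_sum,
      Finset.sum_const, Finset.card_univ]
    norm_num [Fintype.card_fun]
    ring
  rw [h6]
  have h7 := stepE hb he
  linarith

end near

end Pool.Agent.W700.Dau
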