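import Mathlib
import Pool.Agent.H130R4.DA6
import Pool.Agent.W700.Dau.Form3
import Pool.Agent.W700.Dau.Ext

/-!
# The projective tensor product of the two spaces fails the Daugavet property
-/

set_option autoImplicit false
set_option synthInstance.maxHeartbeats 400000

open WithLp Pool.Agent.H130R4.DA

namespace Pool.Agent.W700.Dau

section gen

variable {X : Type*} [NormedAddCommGroup X] [NormedSpace ℝ X]
  {Y : Type*} [NormedAddCommGroup Y] [NormedSpace ℝ Y]

theorem norm_le_of_unit (Λ : StrongDual ℝ (ProjectiveTensorProduct ℝ X Y)) (C : ℝ) (hC : 0 ≤ C)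
    (h : ∀ (x : X) (y : Y), ‖x‖ ≤ 1 → ‖y‖ ≤ 1 → |Λ (incl (ProjTensor.tmul ℝ x y))| ≤ C) :
    ‖Λ‖ ≤ C := by
  have h1 : ∀ (x : X) (y : Y), ‖Λ (incl (ProjTensor.tmul ℝ x y))‖ ≤ C * (‖x‖ * ‖y‖) := by
    intro x y
    by_cases hx : x = 0
    · have e1 : ProjTensor.tmul ℝ x y = 0 := by rw [hx]; exact TensorProduct.zero_tmul _ _
      rw [e1, map_zero, map_zero, norm_zero, hx, norm_zero]; simp
    by_cases hy : y = 0
    · have e1 : ProjTensor.tmul ℝ x y = 0 := by rw [hy]; exact TensorProduct.tmul_zero _ _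
      rw [e1, map_zero, map_zero, norm_zero, hy, norm_zero]; simp
    have hxn : 0 < ‖x‖ := norm_pos_iff.mpr hx
    have hyn : 0 < ‖y‖ := norm_pos_iff.mpr hy
    have h2 := h (‖x‖⁻¹ • x) (‖y‖⁻¹ • y)
      (by rw [norm_smul, norm_inv, norm_norm, inv_mul_cancel₀ hxn.ne'])
      (by rw [norm_smul, norm_inv, norm_norm, inv_mul_cancel₀ hyn.ne'])
    have e1 : ProjTensor.tmul ℝ (‖x‖⁻¹ • x) (‖y‖⁻¹ • y) =
        (‖x‖⁻¹ * ‖y‖⁻¹) • ProjTensor.tmul ℝ x y := TensorProduct.smul_tmul_smul _ _ _ _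
    rw [e1, map_smul, map_smul, smul_eq_mul, abs_mul, abs_of_pos (by positivity)] at h2
    rw [Real.norm_eq_abs]
    have h3 : ‖x‖ * ‖y‖ * (‖x‖⁻¹ * ‖y‖⁻¹ * |Λ (incl (ProjTensor.tmul ℝ x y))|) ≤
        ‖x‖ * ‖y‖ * C := mul_le_mul_of_nonneg_left h2 (by positivity)
    have h4 : ‖x‖ * ‖y‖ * (‖x‖⁻¹ * ‖y‖⁻¹ * |Λ (incl (ProjTensor.tmul ℝ x y))|) =
        |Λ (incl (ProjTensor.tmul ℝ x y))| := by field_simp
    rw [h4] at h3
    linarith
  have h2 : ∀ t : ProjTensor ℝ X Y, ‖Λ (incl t)‖ ≤ C * ‖t‖ := fun t =>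
    bound_of_tmul ((Λ : ProjectiveTensorProduct ℝ X Y →ₗ[ℝ] ℝ).comp incl) C hC h1 t
  refine Λ.opNorm_le_bound hC fun w => ?_
  refine le_of_forall_pos_le_add fun ε hε => ?_
  obtain ⟨t, ht⟩ := dense_incl w (ε / (‖Λ‖ + C + 1)) (by positivity)
  have e1 : ‖Λ w‖ ≤ ‖Λ (incl t)‖ + ‖Λ‖ * ‖w - incl t‖ := by
    have e2 : Λ w = Λ (incl t) + Λ (w - incl t) := by rw [← map_add]; congr 1; abel
    rw [e2]
    exact (norm_add_le _ _).trans (add_le_add le_rfl (Λ.le_opNorm _))
  have e3 : ‖t‖ ≤ ‖w‖ + ‖w - incl t‖ := by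
    rw [← norm_incl (𝕜 := ℝ) t]
    have e4 : (incl t : ProjectiveTensorProduct ℝ X Y) = w - (w - incl t) := by abel
    conv_lhs => rw [e4]
    exact norm_sub_le _ _
  have e5 := h2 t
  have e6 : C * ‖t‖ ≤ C * (‖w‖ + ‖w - incl t‖) := mul_le_mul_of_nonneg_left e3 hC
  have e7 : (‖Λ‖ + C + 1) * ‖w - incl t‖ ≤ ε := by
    have := mul_le_mul_of_nonneg_left ht.le (show 0 ≤ ‖Λ‖ + C + 1 by positivity)
    rwa [mul_div_cancel₀ _ (show ‖Λ‖ + C + 1 ≠ 0 by positivity)] at this
  nlinarith [norm_nonneg (w - incl t)]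

end gen

section fin

variable {B : Type} [NormedAddCommGroup B] [NormedSpace ℝ B]

/-- the extremal form as a continuous bilinear map -/
noncomputable def B0 (es : StrongDual ℝ B) (hes : ‖es‖ ≤ 1) :
    YY B →L[ℝ] StrongDual ℝ (XX B) :=
  LinearMap.mkContinuous₂ (LinearMap.mk₂ ℝ (fun (y : YY B) (x : XX B) => G0 es x y)
    (fun y y' x => by
      unfold G0
      rw [← Finset.sum_add_distrib]
      refine Finset.sum_congr rfl fun θ _ => ?_
      have h1 : ∑ p : I × I, dif θ (av es x) p * es (((y + y') θ).fst p) =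
          ∑ p : I × I, dif θ (av es x) p * es ((y θ).fst p) +
          ∑ p : I × I, dif θ (av es x) p * es ((y' θ).fst p) := by
        rw [← Finset.sum_add_distrib]
        refine Finset.sum_congr rfl fun p _ => ?_
        rw [Pi.add_apply, add_fst, Pi.add_apply, map_add]
        ring
      rw [h1, Pi.add_apply, add_snd, map_add]
      ring)
    (fun c y x => by
      unfold G0
      rw [smul_eq_mul, Finset.mul_sum]
      refine Finset.sum_congr rfl fun θ _ => ?_
      have h1 : ∑ p : I × I, dif θ (av es x) p * es (((c • y) θ).fst p) =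
          c * ∑ p : I × I, dif θ (av es x) p * es ((y θ).fst p) := by
        rw [Finset.mul_sum]
        refine Finset.sum_congr rfl fun p _ => ?_
        rw [Pi.smul_apply, smul_fst, Pi.smul_apply, map_smul, smul_eq_mul]
        ring
      rw [h1, Pi.smul_apply, smul_snd, map_smul, smul_eq_mul]
      ring)
    (fun y x x' => by
      unfold G0
      rw [← Finset.sum_add_distrib]
      refine Finset.sum_congr rfl fun θ _ => ?_
      have h0 : av es (x + x') = (1 : ℝ) • av es x + (1 : ℝ) • av es x' := by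
        funext k
        simp [av]
      have h1 : ∑ p : I × I, dif θ (av es (x + x')) p * es ((y θ).fst p) =
          ∑ p : I × I, dif θ (av es x) p * es ((y θ).fst p) +
          ∑ p : I × I, dif θ (av es x') p * es ((y θ).fst p) := by
        rw [← Finset.sum_add_distrib]
        refine Finset.sum_congr rfl fun p _ => ?_
        rw [h0, dif_comb]
        ring
      rw [h1, h0, lin_comb]
      ring)
    (fun c y x => by
      unfold G0
      rw [smul_eq_mul, Finset.mul_sum]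
      refine Finset.sum_congr rfl fun θ _ => ?_
      have h0 : av es (c • x) = c • av es x + (0 : ℝ) • av es x := by
        funext k
        simp [av]
      have h1 : ∑ p : I × I, dif θ (av es (c • x)) p * es ((y θ).fst p) =
          c * ∑ p : I × I, dif θ (av es x) p * es ((y θ).fst p) := by
        rw [Finset.mul_sum]
        refine Finset.sum_congr rfl fun p _ => ?_
        rw [h0, dif_comb]
        ring
      rw [h1, h0, lin_comb]
      ring)) 1 (fun y x => by
    show |G0 es x y| ≤ 1 * ‖y‖ * ‖x‖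
    rw [one_mul, mul_comm]
    exact G0_bound es hes x y)

theorem B0_apply (es : StrongDual ℝ B) (hes : ‖es‖ ≤ 1) (x : XX B) (y : YY B) :
    B0 es hes y x = G0 es x y := rfl

theorem B0_norm (es : StrongDual ℝ B) (hes : ‖es‖ ≤ 1) (y : YY B) :
    ‖B0 es hes y‖ ≤ 1 * ‖y‖ := by
  refine ContinuousLinearMap.opNorm_le_bound _ (by positivity) fun x => ?_
  rw [B0_apply, one_mul, mul_comm]
  exact G0_bound es hes x y

/-- average of a fixed coordinate of the first parts -/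
noncomputable def ystar (es : StrongDual ℝ B) (y : YY B) : ℝ :=
  1 / 32 * ∑ θ : J, es ((y θ).fst (0, 0))

theorem ystar_bound (es : StrongDual ℝ B) (hes : ‖es‖ ≤ 1) (y : YY B) :
    |ystar es y| ≤ ‖y‖ := by
  unfold ystar
  rw [abs_mul, abs_of_pos (by norm_num : (0 : ℝ) < 1 / 32)]
  have h1 : |∑ θ : J, es ((y θ).fst (0, 0))| ≤ ∑ _θ : J, ‖y‖ := by
    refine (Finset.abs_sum_le_sum_abs _ _).trans (Finset.sum_le_sum fun θ _ => ?_)
    have h2 := es.le_of_opNorm_le hes ((y θ).fst (0, 0))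
    rw [one_mul, Real.norm_eq_abs] at h2
    refine h2.trans ((norm_le_pi_norm _ _).trans ?_)
    have h3 := norm_le_pi_norm y θ
    have h4 : ‖y θ‖ = ‖(y θ).fst‖ + ‖(y θ).snd‖ := prod_norm_eq_of_L1 _
    linarith [norm_nonneg (y θ).snd]
  rw [Finset.sum_const, Finset.card_univ] at h1
  have h5 : Fintype.card J = 32 := by norm_num [Fintype.card_fun]
  rw [h5, nsmul_eq_mul] at h1
  push_cast at h1
  linarith

/-- the functional `x* ⊗ y*` as a bilinear map -/
noncomputable def B1 (es : StrongDual ℝ B) (hes : ‖es‖ ≤ 1) :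
    YY B →L[ℝ] StrongDual ℝ (XX B) :=
  LinearMap.mkContinuous₂ (LinearMap.mk₂ ℝ
    (fun (y : YY B) (x : XX B) => ystar es y * es (x 0))
    (fun y y' x => by
      unfold ystar
      have : ∑ θ : J, es (((y + y') θ).fst (0, 0)) =
        ∑ θ : J, es ((y θ).fst (0, 0)) + ∑ θ : J, es ((y' θ).fst (0, 0)) := by
        rw [← Finset.sum_add_distrib]
        refine Finset.sum_congr rfl fun θ _ => ?_
        rw [Pi.add_apply, add_fst, Pi.add_apply, map_add]
      rw [this]
      ring)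
    (fun c y x => by
      unfold ystar
      have : ∑ θ : J, es (((c • y) θ).fst (0, 0)) =
        c * ∑ θ : J, es ((y θ).fst (0, 0)) := by
        rw [Finset.mul_sum]
        refine Finset.sum_congr rfl fun θ _ => ?_
        rw [Pi.smul_apply, smul_fst, Pi.smul_apply, map_smul, smul_eq_mul]
      rw [this, smul_eq_mul]
      ring)
    (fun y x x' => by
      rw [Pi.add_apply, map_add]
      ring)
    (fun c y x => by
      rw [Pi.smul_apply, map_smul, smul_eq_mul, smul_eq_mul]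
      ring)) 1 (fun y x => by
    have h1 : |es (x 0)| ≤ ‖x‖ := by
      have h2 := es.le_of_opNorm_le hes (x 0)
      rw [one_mul, Real.norm_eq_abs] at h2
      exact h2.trans (norm_le_pi_norm x 0)
    show |ystar es y * es (x 0)| ≤ 1 * ‖y‖ * ‖x‖
    rw [one_mul, abs_mul]
    exact mul_le_mul (ystar_bound es hes y) h1 (abs_nonneg _) (norm_nonneg _))

theorem B1_apply (es : StrongDual ℝ B) (hes : ‖es‖ ≤ 1) (x : XX B) (y : YY B) :
    B1 es hes y x = ystar es y * es (x 0) := rfl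

theorem B1_norm (es : StrongDual ℝ B) (hes : ‖es‖ ≤ 1) (y : YY B) :
    ‖B1 es hes y‖ ≤ 1 * ‖y‖ := by
  refine ContinuousLinearMap.opNorm_le_bound _ (by positivity) fun x => ?_
  have h1 : |es (x 0)| ≤ ‖x‖ := by
    have h2 := es.le_of_opNorm_le hes (x 0)
    rw [one_mul, Real.norm_eq_abs] at h2
    exact h2.trans (norm_le_pi_norm x 0)
  rw [B1_apply, one_mul, Real.norm_eq_abs, abs_mul]
  exact mul_le_mul (ystar_bound es hes y) h1 (abs_nonneg _) (norm_nonneg _)

/-- the tensor `u` -/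
noncomputable def u0 (e : B) : ProjectiveTensorProduct ℝ (XX B) (YY B) :=
  (1 / 192 : ℝ) • ∑ t : J × Option I,
    incl (ProjTensor.tmul ℝ (xel e t.1 t.2) (yel e t.1 t.2))

theorem card_T : Fintype.card (J × Option I) = 192 := by
  rw [Fintype.card_prod, Fintype.card_option, Fintype.card_fin, Fintype.card_fun,
    Fintype.card_fin, Fintype.card_bool]
  norm_num

theorem norm_u0_le {e : B} (he : ‖e‖ = 1) : ‖u0 e‖ ≤ 1 := by
  unfold u0
  rw [norm_smul]
  have h1 : ‖∑ t : J × Option I, incl (𝕜 := ℝ) (ProjTensor.tmul ℝ (xel e t.1 t.2)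
      (yel e t.1 t.2))‖ ≤ ∑ _t : J × Option I, (1 : ℝ) := by
    refine (norm_sum_le _ _).trans (Finset.sum_le_sum fun t _ => ?_)
    rw [norm_incl]
    refine (norm_tmul_le _ _).trans ?_
    calc ‖xel e t.1 t.2‖ * ‖yel e t.1 t.2‖ ≤ 1 * 1 :=
          mul_le_mul (norm_xel he _ _) (norm_yel he _ _) (norm_nonneg _) zero_le_one
      _ = 1 := one_mul 1
  rw [Finset.sum_const, Finset.card_univ, card_T] at h1
  rw [Real.norm_eq_abs, abs_of_pos (by norm_num)]
  norm_num at h1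
  linarith

theorem apply_u0 (e : B) (ψ : StrongDual ℝ (ProjectiveTensorProduct ℝ (XX B) (YY B))) :
    ψ (u0 e) = 1 / 192 * ∑ t : J × Option I,
      ψ (incl (ProjTensor.tmul ℝ (xel e t.1 t.2) (yel e t.1 t.2))) := by
  unfold u0
  rw [map_smul, map_sum, smul_eq_mul]

theorem norm_u0 {e : B} (he : ‖e‖ = 1) (es : StrongDual ℝ B) (hes : ‖es‖ ≤ 1)
    (hese : es e = 1) : ‖u0 e‖ = 1 := by
  refine le_antisymm (norm_u0_le he) ?_
  obtain ⟨G, hG1, hG2⟩ := exists_functional_of_bilin (B0 es hes) 1 zero_le_one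
    (B0_norm es hes)
  have h1 : G (u0 e) = 1 := by
    rw [apply_u0]
    have h2 : ∀ t : J × Option I, G (incl (ProjTensor.tmul ℝ (xel e t.1 t.2)
        (yel e t.1 t.2))) = 1 := fun t => by
      rw [hG2, B0_apply, G0_tight es e hese]
    rw [Finset.sum_congr rfl fun t _ => h2 t, Finset.sum_const, Finset.card_univ, card_T]
    norm_num
  have h3 := G.le_of_opNorm_le hG1 (u0 e)
  rw [h1, one_mul, norm_one] at h3
  exact h3

/-- The main inequality on elementary tensors. -/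
theorem elem_bound {e : B} (he : ‖e‖ = 1) (es : StrongDual ℝ B) (hes : ‖es‖ ≤ 1)
    (ψ : StrongDual ℝ (ProjectiveTensorProduct ℝ (XX B) (YY B))) (hψ : ‖ψ‖ ≤ 1)
    (x : XX B) (y : YY B) (hx : ‖x‖ ≤ 1) (hy : ‖y‖ ≤ 1) :
    |ψ (incl (ProjTensor.tmul ℝ x y)) + ystar es y * es (x 0) * ψ (u0 e)| ≤
      2 - 1 / 10 ^ 8 := by
  wlog hs : 0 ≤ ψ (u0 e) generalizing ψ
  · push Not at hs
    have h1 := this (-ψ) (by rwa [norm_neg]) (by rw [neg_apply]; linarith)
    rw [neg_apply, neg_apply] at h1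
    have h2 : -ψ (incl (ProjTensor.tmul ℝ x y)) + ystar es y * es (x 0) * -ψ (u0 e) =
        -(ψ (incl (ProjTensor.tmul ℝ x y)) + ystar es y * es (x 0) * ψ (u0 e)) := by ring
    rwa [h2, abs_neg] at h1
  obtain ⟨b, hb, hbψ⟩ := exists_bil ψ hψ
  have hesx : |es (x 0)| ≤ 1 := by
    have h2 := es.le_of_opNorm_le hes (x 0)
    rw [one_mul, Real.norm_eq_abs] at h2
    exact h2.trans ((norm_le_pi_norm x 0).trans hx)
  have hys : |ystar es y| ≤ 1 := (ystar_bound es hes y).trans hy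
  have hψu : |ψ (u0 e)| ≤ 1 := by
    have h2 := ψ.le_of_opNorm_le hψ (u0 e)
    rw [one_mul, Real.norm_eq_abs] at h2
    exact h2.trans (norm_u0_le he)
  have hbxy : |b x y| ≤ 1 := bd1 hb hx hy
  rw [← hbψ]
  have h0 : |b x y + ystar es y * es (x 0) * ψ (u0 e)| ≤
      |b x y| + |ystar es y| * |ψ (u0 e)| := by
    refine (abs_add_le _ _).trans (add_le_add le_rfl ?_)
    rw [abs_mul, abs_mul]
    refine mul_le_mul_of_nonneg_right ?_ (abs_nonneg _)
    exact mul_le_of_le_one_right (abs_nonneg _) hesx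
  refine h0.trans ?_
  by_cases c1 : |ystar es y| ≤ 1 - 1 / 1000
  · have h1 : |ystar es y| * |ψ (u0 e)| ≤ (1 - 1 / 1000) * 1 :=
      mul_le_mul c1 hψu (abs_nonneg _) (by norm_num)
    norm_num at h1 ⊢
    linarith
  by_cases c2 : |ψ (u0 e)| ≤ 1 - 1 / 10 ^ 8
  · have h1 : |ystar es y| * |ψ (u0 e)| ≤ 1 * (1 - 1 / 10 ^ 8) :=
      mul_le_mul hys c2 (abs_nonneg _) (by norm_num)
    linarith
  push Not at c1 c2
  rw [abs_of_nonneg hs] at c2
  -- near maximality
  have H : ∀ (x' : J) (o : Option I), 1 - 192 / 10 ^ 8 ≤ b (xel e x' o) (yel e x' o) := by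
    intro x' o
    rw [apply_u0] at c2
    have h1 : ∑ t : J × Option I, ψ (incl (ProjTensor.tmul ℝ (xel e t.1 t.2)
        (yel e t.1 t.2))) = ∑ t : J × Option I, b (xel e t.1 t.2) (yel e t.1 t.2) :=
      Finset.sum_congr rfl fun t _ => (hbψ _ _).symm
    rw [h1, ← Finset.add_sum_erase _ _ (Finset.mem_univ ((x', o) : J × Option I))] at c2
    have h2 : ∑ t ∈ (Finset.univ : Finset (J × Option I)).erase (x', o),
        b (xel e t.1 t.2) (yel e t.1 t.2) ≤
        ∑ _t ∈ (Finset.univ : Finset (J × Option I)).erase (x', o), (1 : ℝ) :=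
      Finset.sum_le_sum fun t _ => (abs_le.1 (bd1 hb (norm_xel he _ _) (norm_yel he _ _))).2
    rw [Finset.sum_const, Finset.card_erase_of_mem (Finset.mem_univ _), Finset.card_univ,
      card_T] at h2
    norm_num at h2 c2 ⊢
    linarith
  -- the second parts are small
  have hsnd : ∀ θ : J, ‖(y θ).snd‖ ≤ 32 / 1000 := by
    intro θ
    unfold ystar at c1
    rw [abs_mul, abs_of_pos (by norm_num : (0 : ℝ) < 1 / 32)] at c1
    have h1 : |∑ θ : J, es ((y θ).fst (0, 0))| ≤ ∑ θ : J, ‖(y θ).fst‖ := by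
      refine (Finset.abs_sum_le_sum_abs _ _).trans (Finset.sum_le_sum fun θ _ => ?_)
      have h2 := es.le_of_opNorm_le hes ((y θ).fst (0, 0))
      rw [one_mul, Real.norm_eq_abs] at h2
      exact h2.trans (norm_le_pi_norm _ _)
    have h1' : ∑ θ' : J, ‖(y θ').fst‖ = ‖(y θ).fst‖ +
        ∑ θ' ∈ (Finset.univ : Finset J).erase θ, ‖(y θ').fst‖ :=
      (Finset.add_sum_erase _ (fun θ' => ‖(y θ').fst‖) (Finset.mem_univ θ)).symm
    have hle : ∀ θ : J, ‖(y θ).fst‖ + ‖(y θ).snd‖ ≤ 1 := fun θ => by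
      rw [← prod_norm_eq_of_L1]
      exact (norm_le_pi_norm y θ).trans hy
    have h2 : ∑ θ' ∈ (Finset.univ : Finset J).erase θ, ‖(y θ').fst‖ ≤
        ∑ _θ' ∈ (Finset.univ : Finset J).erase θ, (1 : ℝ) :=
      Finset.sum_le_sum fun θ' _ => by
        have := hle θ'
        linarith [norm_nonneg (y θ').snd]
    have h5 : Fintype.card J = 32 := by norm_num [Fintype.card_fun]
    rw [Finset.sum_const, Finset.card_erase_of_mem (Finset.mem_univ _), Finset.card_univ,
      h5, nsmul_eq_mul] at h2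
    have h6 := hle θ
    have h7 : ((32 - 1 : ℕ) : ℝ) = 31 := by norm_num
    rw [h7] at h2
    linarith
  -- conclusion
  have hdec := yy_decomp y
  have h1 : b x y = b x (∑ θ, cY θ (y θ).fst) + b x (∑ θ, lY θ (y θ).snd) := by
    conv_lhs => rw [hdec]
    rw [Finset.sum_add_distrib, map_add]
  have hf : ∀ θ : J, ‖(y θ).fst‖ ≤ 1 := fun θ => by
    have h3 : ‖(y θ).fst‖ + ‖(y θ).snd‖ ≤ 1 := by
      rw [← prod_norm_eq_of_L1]
      exact (norm_le_pi_norm y θ).trans hy
    linarith [norm_nonneg (y θ).snd]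
  have h2 := form_small hb he (by norm_num : (0 : ℝ) ≤ 192 / 10 ^ 8) H x hx
    (fun θ => (y θ).fst) hf
  have h3 : |b x (∑ θ, lY θ (y θ).snd)| ≤ 32 / 1000 := by
    have h4 : ‖∑ θ, lY θ (y θ).snd‖ ≤ 32 / 1000 := by
      refine (pi_norm_le_iff_of_nonneg (by norm_num)).2 fun θ => ?_
      have h5 : (∑ θ', lY θ' (y θ').snd) θ = toLp 1 (0, (y θ).snd) := by
        rw [Finset.sum_apply, Finset.sum_eq_single θ, lY_same]
        · intro θ' _ hne
          exact lY_ne hne.symm _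
        · intro h; exact absurd (Finset.mem_univ θ) h
      rw [h5, norm_AA, norm_zero, zero_add]
      exact hsnd θ
    have h6 := (b x).le_opNorm (∑ θ, lY θ (y θ).snd)
    rw [Real.norm_eq_abs] at h6
    calc |b x (∑ θ, lY θ (y θ).snd)| ≤ ‖b x‖ * ‖∑ θ, lY θ (y θ).snd‖ := h6
      _ ≤ 1 * (32 / 1000) := mul_le_mul ((hb x).trans hx) h4 (norm_nonneg _) zero_le_one
      _ = 32 / 1000 := one_mul _
  have h7 : |b x y| ≤ 8 / 9 + 10000 * (192 / 10 ^ 8) + 32 / 1000 := by
    rw [h1]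
    refine (abs_add_le _ _).trans ?_
    linarith
  have h8 : |ystar es y| * |ψ (u0 e)| ≤ 1 * 1 := mul_le_mul hys hψu (abs_nonneg _) zero_le_one
  norm_num at h7 h8 ⊢
  linarith

theorem not_daugavet {e : B} (he : ‖e‖ = 1) (es : StrongDual ℝ B) (hes : ‖es‖ ≤ 1)
    (hese : es e = 1) : ¬ DaugavetProperty ℝ (ProjectiveTensorProduct ℝ (XX B) (YY B)) := by
  intro hD
  obtain ⟨φ, hφ1, hφ2⟩ := exists_functional_of_bilin (B1 es hes) 1 zero_le_one
    (B1_norm es hes)
  have hφn : ‖φ‖ = 1 := by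
    refine le_antisymm hφ1 ?_
    set x1 : XX B := fun _ => e with hx1
    set y1 : YY B := fun _ => toLp 1 (fun _ => e, 0) with hy1
    have hx : ‖x1‖ ≤ 1 := (pi_norm_le_iff_of_nonneg zero_le_one).2 fun _ => he.le
    have hy : ‖y1‖ ≤ 1 := norm_YY_le fun θ => by
      rw [hy1, norm_AA, norm_zero, add_zero]
      exact norm_fun_le fun _ => he.le
    have h1 : φ (incl (ProjTensor.tmul ℝ x1 y1)) = 1 := by
      rw [hφ2, B1_apply]
      have h2 : ystar es y1 = 1 := by
        unfold ystar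
        have h3 : ∀ θ : J, es ((y1 θ).fst (0, 0)) = 1 := fun θ => hese
        rw [Finset.sum_congr rfl fun θ _ => h3 θ, Finset.sum_const, Finset.card_univ]
        norm_num [Fintype.card_fun]
      rw [h2, one_mul]
      exact hese
    have h3 := φ.le_opNorm (incl (ProjTensor.tmul ℝ x1 y1))
    rw [h1, norm_one, norm_incl] at h3
    have h4 : ‖ProjTensor.tmul ℝ x1 y1‖ ≤ 1 := by
      refine (norm_tmul_le _ _).trans ?_
      calc ‖x1‖ * ‖y1‖ ≤ 1 * 1 := mul_le_mul hx hy (norm_nonneg _) zero_le_one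
        _ = 1 := one_mul 1
    calc 1 ≤ ‖φ‖ * ‖ProjTensor.tmul ℝ x1 y1‖ := h3
      _ ≤ ‖φ‖ * 1 := mul_le_mul_of_nonneg_left h4 (norm_nonneg _)
      _ = ‖φ‖ := mul_one _
  have h2 := dp_smulRight hD φ (u0 e) hφn (norm_u0 he es hes hese)
  have h3 : ‖ContinuousLinearMap.id ℝ (ProjectiveTensorProduct ℝ (XX B) (YY B)) +
      φ.smulRight (u0 e)‖ ≤ 2 - 1 / 10 ^ 8 := by
    refine ContinuousLinearMap.opNorm_le_bound _ (by norm_num) fun w => ?_
    obtain ⟨ψ, hψ1, hψ2⟩ := exists_dual_vector'' ℝ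
      ((ContinuousLinearMap.id ℝ (ProjectiveTensorProduct ℝ (XX B) (YY B)) +
      φ.smulRight (u0 e)) w)
    have h4 : ‖ψ + ψ (u0 e) • φ‖ ≤ 2 - 1 / 10 ^ 8 := by
      refine norm_le_of_unit _ _ (by norm_num) fun x y hx hy => ?_
      have h5 := elem_bound he es hes ψ hψ1 x y hx hy
      have h6 : (ψ + ψ (u0 e) • φ) (incl (ProjTensor.tmul ℝ x y)) =
          ψ (incl (ProjTensor.tmul ℝ x y)) + ystar es y * es (x 0) * ψ (u0 e) := by
        have h7 : (ψ + ψ (u0 e) • φ) (incl (ProjTensor.tmul ℝ x y)) =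
          ψ (incl (ProjTensor.tmul ℝ x y)) + ψ (u0 e) * φ (incl (ProjTensor.tmul ℝ x y)) := rfl
        rw [h7, hφ2, B1_apply]
        ring
      rw [h6]
      exact h5
    have h8 : (ContinuousLinearMap.id ℝ (ProjectiveTensorProduct ℝ (XX B) (YY B)) +
      φ.smulRight (u0 e)) w = w + φ w • u0 e := rfl
    rw [h8] at hψ2 ⊢
    have h9 : ψ (w + φ w • u0 e) = (ψ + ψ (u0 e) • φ) w := by
      have h10 : (ψ + ψ (u0 e) • φ) w = ψ w + ψ (u0 e) * φ w := rfl
      rw [map_add, map_smul, smul_eq_mul, h10]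
      ring
    rw [h9] at hψ2
    have h11 := (ψ + ψ (u0 e) • φ).le_of_opNorm_le h4 w
    rw [hψ2] at h11
    simpa using h11
  rw [h2] at h3
  norm_num at h3

end fin

end Pool.Agent.W700.Dau
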